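import Pool.Agent.Lib.MP_09bd9b_co.Stm

set_option autoImplicit false

/-!
# MP_09bd9b_co, project CD, piece COL: finite quotient and greedy colouring
-/

namespace Pool.Agent.Lib.MP_09bd9b_co

open Finset

/-- greedy colouring -/
private theorem col_greedy {W : Type} [Fintype W] [DecidableEq W] (R : W → W → Prop)
    (hsymm : ∀ a b, R a b → R b a) (hirr : ∀ a, ¬ R a a) (q : ℕ)
    (N : W → Finset W) (hN : ∀ a b, R a b → b ∈ N a) (hq : ∀ a, (N a).card < q) (S : Finset W) :
    ∃ κ : W → Fin q, ∀ a ∈ S, ∀ b ∈ S, R a b → κ a ≠ κ b := by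
  classical
  induction S using Finset.induction_on with
  | empty =>
    rcases isEmpty_or_nonempty W with h | ⟨⟨a⟩⟩
    · exact ⟨fun a => (h.false a).elim, fun a ha => absurd ha (Finset.notMem_empty a)⟩
    · have : 0 < q := lt_of_le_of_lt (Nat.zero_le _) (hq a)
      exact ⟨fun _ => ⟨0, this⟩, fun a ha => absurd ha (Finset.notMem_empty a)⟩
  | insert a S ha ih =>
    obtain ⟨κ, hκ⟩ := ih
    obtain ⟨c, hc⟩ : ∃ c : Fin q, c ∉ (N a).image κ := by
      by_contra hcon
      push Not at hcon
      have h1 : (Finset.univ : Finset (Fin q)).card ≤ ((N a).image κ).card :=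
        Finset.card_le_card fun c _ => hcon c
      have h2 := (N a).card_image_le (f := κ)
      have h3 := hq a
      rw [Finset.card_univ, Fintype.card_fin] at h1
      omega
    have hc' : ∀ b, R a b → κ b ≠ c := fun b hb h =>
      hc (Finset.mem_image.2 ⟨b, hN a b hb, h⟩)
    refine ⟨Function.update κ a c, ?_⟩
    intro x hx y hy hxy
    rcases Finset.mem_insert.1 hx with h1 | h1
    · rcases Finset.mem_insert.1 hy with h2 | h2
      · rw [h1, h2] at hxy
        exact absurd hxy (hirr a)
      · have hya : y ≠ a := fun h => ha (h ▸ h2)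
        rw [h1, Function.update_self, Function.update_of_ne hya]
        exact (hc' y (h1 ▸ hxy)).symm
    · have hxa : x ≠ a := fun h => ha (h ▸ h1)
      rcases Finset.mem_insert.1 hy with h2 | h2
      · rw [h2, Function.update_self, Function.update_of_ne hxa]
        exact hc' x (hsymm _ _ (h2 ▸ hxy))
      · have hya : y ≠ a := fun h => ha (h ▸ h2)
        rw [Function.update_of_ne hxa, Function.update_of_ne hya]
        exact hκ x h1 y h2 hxy

private theorem col_nb_symm {W : Type} {J : SimpleGraph W} {x y : W} (h : Nb J x y) : Nb J y x := by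
  rcases h with h | h
  · exact Or.inl h.symm
  · exact Or.inr h.symm

/-- colouring of the sets of diameter at most three -/
private theorem col_col {W : Type} [Fintype W] (J : SimpleGraph W) (D : ℕ)
    (hD : ∀ w, (J.neighborSet w).encard ≤ D) : ∃ κ : W → Fin ((D + 1) ^ 3), Col3 J κ := by
  classical
  set N1 : W → Finset W := fun w => Finset.univ.filter fun x => Nb J w x with hN1
  have hN1c : ∀ w, (N1 w).card ≤ D + 1 := by
    intro w
    have h1 : N1 w ⊆ insert w (Finset.univ.filter fun x => J.Adj w x) := by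
      intro x hx
      rcases (Finset.mem_filter.1 hx).2 with h | h
      · exact Finset.mem_insert.2 (Or.inl h.symm)
      · exact Finset.mem_insert.2 (Or.inr (Finset.mem_filter.2 ⟨Finset.mem_univ _, h⟩))
    have h2 : (Finset.univ.filter fun x => J.Adj w x).card ≤ D := by
      have h3 := hD w
      have h4 : J.neighborSet w = ((Finset.univ.filter fun x => J.Adj w x : Finset W) : Set W) := by
        ext x
        simp
      rw [h4, Set.encard_coe_eq_coe_finsetCard] at h3
      exact_mod_cast h3
    calc (N1 w).card ≤ (insert w (Finset.univ.filter fun x => J.Adj w x)).card :=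
          Finset.card_le_card h1
      _ ≤ (Finset.univ.filter fun x => J.Adj w x).card + 1 := Finset.card_insert_le _ _
      _ ≤ D + 1 := by omega
  set N3 : W → Finset W := fun w => (N1 w).biUnion fun x => (N1 x).biUnion fun y => N1 y with hN3
  have hN3c : ∀ w, (N3 w).card ≤ (D + 1) ^ 3 := by
    intro w
    have h1 : ∀ x, ((N1 x).biUnion fun y => N1 y).card ≤ (D + 1) * (D + 1) := by
      intro x
      refine (Finset.card_biUnion_le_card_mul _ _ (D + 1) fun y _ => hN1c y).trans ?_
      exact Nat.mul_le_mul_right _ (hN1c x)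
    refine (Finset.card_biUnion_le_card_mul _ _ ((D + 1) * (D + 1)) fun x _ => h1 x).trans ?_
    calc (N1 w).card * ((D + 1) * (D + 1)) ≤ (D + 1) * ((D + 1) * (D + 1)) :=
          Nat.mul_le_mul_right _ (hN1c w)
      _ = (D + 1) ^ 3 := by ring
  have hmem : ∀ w x y w', Nb J w x → Nb J x y → Nb J y w' → w' ∈ N3 w := by
    intro w x y w' h1 h2 h3
    refine Finset.mem_biUnion.2 ⟨x, Finset.mem_filter.2 ⟨Finset.mem_univ _, h1⟩, ?_⟩
    refine Finset.mem_biUnion.2 ⟨y, Finset.mem_filter.2 ⟨Finset.mem_univ _, h2⟩, ?_⟩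
    exact Finset.mem_filter.2 ⟨Finset.mem_univ _, h3⟩
  have hself : ∀ w, w ∈ N3 w := fun w => hmem w w w w (Or.inl rfl) (Or.inl rfl) (Or.inl rfl)
  obtain ⟨κ, hκ⟩ := col_greedy
    (fun w w' => w ≠ w' ∧ ∃ x y, Nb J w x ∧ Nb J x y ∧ Nb J y w')
    (by
      rintro a b ⟨h, x, y, h1, h2, h3⟩
      exact ⟨h.symm, y, x, col_nb_symm h3, col_nb_symm h2, col_nb_symm h1⟩)
    (fun a h => h.1 rfl) ((D + 1) ^ 3) (fun w => (N3 w).erase w)
    (by
      rintro a b ⟨h, x, y, h1, h2, h3⟩
      exact Finset.mem_erase.2 ⟨h.symm, hmem a x y b h1 h2 h3⟩)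
    (by
      intro a
      exact lt_of_lt_of_le (Finset.card_erase_lt_of_mem (hself a)) (hN3c a)) Finset.univ
  refine ⟨κ, ?_⟩
  intro w x y w' h1 h2 h3 h4
  by_contra hne
  exact hκ w (Finset.mem_univ _) w' (Finset.mem_univ _) ⟨hne, x, y, h1, h2, h3⟩ h4

theorem p_col : S_col := by
  classical
  rintro D s n V _ H hn ⟨W, J, β, hJ, hβ, hH⟩
  have hfin : Fintype (Set.range β) := Fintype.ofFinite _
  have hJ' : ∀ w, ((J.comap (Subtype.val : Set.range β → W)).neighborSet w).encard ≤ D := by
    intro w
    refine le_trans ?_ (hJ w.1)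
    have h1 : (Subtype.val '' ((J.comap (Subtype.val : Set.range β → W)).neighborSet w)) ⊆
        J.neighborSet w.1 := by
      rintro _ ⟨x, hx, rfl⟩
      exact hx
    rw [← Function.Injective.encard_image Subtype.val_injective]
    exact Set.encard_le_encard h1
  obtain ⟨κ, hκ⟩ := col_col (J.comap (Subtype.val : Set.range β → W)) D hJ'
  have hemb : ∀ w : W, Nonempty ({z : V // β z = w} ↪ Fin s) := by
    intro w
    refine Function.Embedding.nonempty_of_card_le ?_
    rw [Fintype.card_fin]
    have h1 := hβ w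
    have h2 : (β ⁻¹' {w}).encard = ((Finset.univ.filter fun z => β z = w : Finset V) : Set V).encard := by
      apply congrArg
      ext z
      simp
    rw [h2, Set.encard_coe_eq_coe_finsetCard] at h1
    rw [Fintype.card_subtype]
    exact_mod_cast h1
  obtain ⟨emb, -⟩ : ∃ emb : (w : W) → ({z : V // β z = w} ↪ Fin s), emb = emb :=
    ⟨fun w => (hemb w).some, rfl⟩
  have hW : Fintype.card (Set.range β) ≤ n := by
    refine le_trans ?_ hn
    exact Fintype.card_le_of_surjective (fun z : V => (⟨β z, z, rfl⟩ : Set.range β))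
      (by rintro ⟨_, z, rfl⟩; exact ⟨z, rfl⟩)
  refine ⟨Set.range β, hfin, J.comap (Subtype.val : Set.range β → W), fun z => ⟨β z, z, rfl⟩, κ,
    fun z => emb (β z) ⟨z, rfl⟩, hW, ?_, hκ, ?_⟩
  · intro z z' h
    rcases hH z z' h with h1 | h1
    · exact Or.inl (Subtype.ext h1)
    · exact Or.inr h1
  · intro z z' h1 h2
    have h3 : β z = β z' := congrArg Subtype.val h1
    have h4 : ∀ w (h : β z' = w), emb (β z') ⟨z', rfl⟩ = emb w ⟨z', h⟩ := by
      intro w h
      subst h
      rfl
    have h5 : emb (β z) ⟨z, rfl⟩ = emb (β z) ⟨z', h3.symm⟩ := by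
      rw [← h4 (β z) h3.symm]
      exact h2
    have h6 := (emb (β z)).injective h5
    exact congrArg Subtype.val h6

end Pool.Agent.Lib.MP_09bd9b_co
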