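import Pool.Agent.Lib.MP_09bd9b_co.Stm

set_option autoImplicit false

/-!
# MP_09bd9b_co, project CD, piece DBL: the net argument for coarsely doubling graphs
-/

namespace Pool.Agent.Lib.MP_09bd9b_co

open Finset

/-- finite sets of centres -/
theorem dbl_cover {k R : ℕ} {V : Type} [Fintype V] {H : SimpleGraph V}
    (h : CoarseDoubling k R H) (r : ℕ) (hr : R ≤ r) (x : V) : ∃ S : Finset V, S.card ≤ k ∧
      ∀ y : V, H.edist x y ≤ 2 * (r : ℕ∞) → ∃ z ∈ S, H.edist z y ≤ (r : ℕ∞) := by
  classical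
  obtain ⟨S, hS, h1⟩ := h r hr x
  refine ⟨S.toFinset, ?_, fun y hy => ?_⟩
  · rw [← Set.coe_toFinset S, Set.encard_coe_eq_coe_finsetCard] at hS
    exact_mod_cast hS
  · obtain ⟨z, hz, hzy⟩ := h1 y hy
    exact ⟨z, Set.mem_toFinset.2 hz, hzy⟩

/-- the size of the balls -/
theorem dbl_ball {V : Type} [Fintype V] (H : SimpleGraph V) (Δ : ℕ)
    (hΔ : ∀ v, (H.neighborSet v).ncard ≤ Δ) (n : ℕ) (x : V) :
    ∃ S : Finset V, S.card ≤ (Δ + 1) ^ n ∧ ∀ y, H.edist x y ≤ (n : ℕ∞) → y ∈ S := by
  classical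
  induction n with
  | zero =>
    refine ⟨{x}, by simp, fun y hy => ?_⟩
    have h0 : H.edist x y = 0 := le_antisymm (by simpa using hy) zero_le
    rw [SimpleGraph.edist_eq_zero_iff] at h0
    rw [mem_singleton, h0]
  | succ n ih =>
    obtain ⟨S, hS, h1⟩ := ih
    refine ⟨S.biUnion fun z => insert z (H.neighborSet z).toFinset, ?_, fun y hy => ?_⟩
    · have h2 : ∀ z ∈ S, (insert z (H.neighborSet z).toFinset).card ≤ Δ + 1 := by
        intro z _
        refine (card_insert_le _ _).trans ?_
        have h3 := hΔ z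
        rw [Set.ncard_eq_toFinset_card'] at h3
        omega
      calc _ ≤ S.card * (Δ + 1) := card_biUnion_le_card_mul _ _ _ h2
        _ ≤ (Δ + 1) ^ n * (Δ + 1) := Nat.mul_le_mul_right _ hS
        _ = (Δ + 1) ^ (n + 1) := by rw [pow_succ]
    · have hne : H.edist x y ≠ ⊤ := by
        intro h
        rw [h] at hy
        exact absurd hy (by simp)
      obtain ⟨p, hp⟩ := SimpleGraph.exists_walk_of_edist_ne_top hne
      have hpl : p.length ≤ n + 1 := by
        rw [← hp] at hy
        exact_mod_cast hy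
      rw [mem_biUnion]
      cases hq : p.reverse with
      | nil =>
        refine ⟨x, h1 x (by simp), mem_insert_self _ _⟩
      | @cons _ z _ hadj q =>
        have hlen : q.length + 1 = p.length := by
          have h3 := congrArg SimpleGraph.Walk.length hq
          rw [SimpleGraph.Walk.length_reverse, SimpleGraph.Walk.length_cons] at h3
          exact h3.symm
        refine ⟨z, h1 z ?_, mem_insert_of_mem ?_⟩
        · rw [SimpleGraph.edist_comm]
          refine (SimpleGraph.edist_le q).trans ?_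
          have : q.length ≤ n := by omega
          exact_mod_cast this
        · rw [Set.mem_toFinset, SimpleGraph.mem_neighborSet]
          exact hadj.symm

/-- piece DBL -/
theorem p_dbl : S_dbl := by
  intro k Δ R
  refine ⟨(Δ + 1) ^ (2 * (R + 1)), ?_⟩
  intro V _ H hΔ hD
  classical
  set r : ℕ := R + 1 with hr
  -- the net
  obtain ⟨Z, -, hZ⟩ := Finite.exists_le_maximal
    (p := fun S : Finset V => ∀ x ∈ S, ∀ y ∈ S, x ≠ y → ¬ H.edist x y ≤ 2 * (r : ℕ∞))
    (a := (∅ : Finset V)) (by intro x hx; exact absurd hx (notMem_empty x))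
  have hcov : ∀ v : V, ∃ z : Z, H.edist v z ≤ 2 * (r : ℕ∞) := by
    intro v
    by_contra hcon
    push Not at hcon
    have hvZ : v ∉ Z := by
      intro hv
      have := hcon ⟨v, hv⟩
      rw [SimpleGraph.edist_self] at this
      exact absurd this (by simp)
    have hP : ∀ x ∈ insert v Z, ∀ y ∈ insert v Z, x ≠ y → ¬ H.edist x y ≤ 2 * (r : ℕ∞) := by
      intro x hx y hy hxy
      rw [mem_insert] at hx hy
      rcases hx with rfl | hx <;> rcases hy with rfl | hy
      · exact absurd rfl hxy
      · exact not_le.2 (hcon ⟨y, hy⟩)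
      · rw [SimpleGraph.edist_comm]
        exact not_le.2 (hcon ⟨x, hx⟩)
      · exact hZ.prop x hx y hy hxy
    have hle : insert v Z ≤ Z := hZ.le_of_ge hP (subset_insert v Z)
    exact hvZ (hle (mem_insert_self v Z))
  choose β hβ using hcov
  let J : SimpleGraph Z :=
    { Adj := fun z z' => z ≠ z' ∧ H.edist (z : V) z' ≤ 2 * ((4 * r : ℕ) : ℕ∞)
      symm := ⟨fun z z' h => ⟨h.1.symm, by rw [SimpleGraph.edist_comm]; exact h.2⟩⟩
      loopless := ⟨fun z h => h.1 rfl⟩ }
  refine ⟨Z, J, β, fun w => ?_, fun w => ?_, fun z z' h => ?_⟩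
  · -- the degrees of `J`
    have hc : ∀ (r' : ℕ), R ≤ r' → ∀ x : V, ∃ S : Finset V, S.card ≤ k ∧
        ∀ y : V, H.edist x y ≤ 2 * (r' : ℕ∞) → ∃ z ∈ S, H.edist z y ≤ (r' : ℕ∞) :=
      fun r' h' x => dbl_cover hD r' h' x
    obtain ⟨S1, hS1, h1⟩ := hc (4 * r) (by omega) w
    choose S2 hS2 h2 using hc (2 * r) (by omega)
    choose S3 hS3 h3 using hc r (by omega)
    set T : Finset V := (S1.biUnion S2).biUnion S3 with hT
    have hTc : T.card ≤ k ^ 3 := by
      calc T.card ≤ (S1.biUnion S2).card * k := card_biUnion_le_card_mul _ _ _ fun z _ => hS3 z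
        _ ≤ (S1.card * k) * k :=
            Nat.mul_le_mul_right _ (card_biUnion_le_card_mul _ _ _ fun z _ => hS2 z)
        _ ≤ (k * k) * k := by gcongr
        _ = k ^ 3 := by ring
    have hnear : ∀ y : V, H.edist (w : V) y ≤ 2 * ((4 * r : ℕ) : ℕ∞) →
        ∃ z ∈ T, H.edist z y ≤ (r : ℕ∞) := by
      intro y hy
      obtain ⟨z1, hz1, hy1⟩ := h1 y hy
      obtain ⟨z2, hz2, hy2⟩ := h2 z1 y (by
        refine hy1.trans (le_of_eq ?_)
        push_cast
        ring)
      obtain ⟨z3, hz3, hy3⟩ := h3 z2 y (by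
        refine hy2.trans (le_of_eq ?_)
        push_cast
        ring)
      exact ⟨z3, mem_biUnion.2 ⟨z2, mem_biUnion.2 ⟨z1, hz1, hz2⟩, hz3⟩, hy3⟩
    have hnear' : ∀ y : J.neighborSet w, ∃ z : T, H.edist (z : V) (y.1 : V) ≤ (r : ℕ∞) := by
      intro y
      obtain ⟨z, hz, hy⟩ := hnear (y.1 : V) y.2.2
      exact ⟨⟨z, hz⟩, hy⟩
    choose f hf using hnear'
    have hinj : Function.Injective f := by
      intro y y' hyy
      by_contra hne
      have hne' : (y.1 : V) ≠ (y'.1 : V) := fun h => hne (Subtype.ext (Subtype.ext h))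
      apply hZ.prop (y.1 : V) y.1.2 (y'.1 : V) y'.1.2 hne'
      calc H.edist (y.1 : V) (y'.1 : V)
          ≤ H.edist (y.1 : V) (f y : V) + H.edist (f y : V) (y'.1 : V) :=
            SimpleGraph.edist_triangle
        _ ≤ (r : ℕ∞) + (r : ℕ∞) := by
            apply add_le_add
            · rw [SimpleGraph.edist_comm]; exact hf y
            · rw [hyy]; exact hf y'
        _ = 2 * (r : ℕ∞) := by ring
    have hcard : ENat.card (J.neighborSet w) ≤ ENat.card T := ENat.card_le_card_of_injective hinj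
    have hTe : ENat.card T = (T.card : ℕ∞) := by
      rw [ENat.card_eq_coe_fintype_card, Fintype.card_coe]
    rw [Set.encard]
    refine hcard.trans ?_
    rw [hTe]
    exact_mod_cast hTc
  · -- the fibres
    obtain ⟨S, hS, h1⟩ := dbl_ball H Δ hΔ (2 * r) (w : V)
    have hsub : β ⁻¹' {w} ⊆ (S : Set V) := by
      intro v hv
      have hv' : β v = w := hv
      apply h1
      rw [SimpleGraph.edist_comm, ← hv']
      refine (hβ v).trans (le_of_eq ?_)
      push_cast
      rfl
    refine (Set.encard_le_encard hsub).trans ?_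
    rw [Set.encard_coe_eq_coe_finsetCard]
    exact_mod_cast hS
  · -- the edges
    by_cases hzz : β z = β z'
    · exact Or.inl hzz
    · right
      refine ⟨hzz, ?_⟩
      have hr1 : 1 ≤ r := by omega
      calc H.edist (β z : V) (β z' : V)
          ≤ H.edist (β z : V) z + H.edist z (β z' : V) := SimpleGraph.edist_triangle
        _ ≤ H.edist (β z : V) z + (H.edist z z' + H.edist z' (β z' : V)) := by
            gcongr
            exact SimpleGraph.edist_triangle
        _ ≤ 2 * (r : ℕ∞) + (1 + 2 * (r : ℕ∞)) := by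
            apply add_le_add
            · rw [SimpleGraph.edist_comm]; exact hβ z
            · apply add_le_add
              · exact (SimpleGraph.edist_eq_one_iff_adj.2 h).le
              · exact hβ z'
        _ ≤ 2 * ((4 * r : ℕ) : ℕ∞) := by
            have : 2 * r + (1 + 2 * r) ≤ 2 * (4 * r) := by omega
            exact_mod_cast this

end Pool.Agent.Lib.MP_09bd9b_co
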