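import Pool.Agent.Lib.MP_09bd9b_co.Stm

set_option autoImplicit false

/-!
# MP_09bd9b_co, project CD, piece DL: dense `k`-partite hypergraphs contain bounded-degree patterns
-/

namespace Pool.Agent.Lib.MP_09bd9b_co

open Finset

/-- the statement for `ι = Fin k` -/
private def DlFin (k : ℕ) : Prop := ∀ Δ M : ℕ, ∃ c : ℕ, ∀ (α N E : Type) [Fintype α] [Fintype N]
  [Fintype E] (n : ℕ), Fintype.card N ≤ n → c * n ^ 2 ≤ Fintype.card α →
  ∀ A : Set (Fin k → α), Fintype.card α ^ k ≤ M * A.ncard →
  ∀ e : E → Fin k → N, (∀ (i : Fin k) (ν : N), {x : E | e x i = ν}.ncard ≤ Δ) →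
  ∃ Y : Fin k → N → α, (∀ i, Function.Injective (Y i)) ∧ ∀ x : E, (fun i => Y i (e x i)) ∈ A

private lemma dl_zero : DlFin 0 := by
  intro Δ M
  refine ⟨0, fun α N E _ _ _ n _ _ A hA e _ => ?_⟩
  rw [pow_zero] at hA
  have hne : A.Nonempty := by
    rw [Set.nonempty_iff_ne_empty]
    rintro rfl
    rw [Set.ncard_empty, mul_zero] at hA
    omega
  obtain ⟨f, hf⟩ := hne
  refine ⟨fun i => i.elim0, fun i => i.elim0, fun x => ?_⟩
  have : (fun i : Fin 0 => (fun i : Fin 0 => (i.elim0 : N → α)) i (e x i)) = f :=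
    Subsingleton.elim _ _
  rw [this]
  exact hf

private lemma dl_succ (hdrc : S_drc) {k : ℕ} (ih : DlFin k) : DlFin (k + 1) := by
  classical
  intro Δ M
  obtain ⟨c, hc⟩ := ih Δ (2 * M ^ (2 * k * Δ + 2))
  refine ⟨max c (2 * M ^ 2 + 1), fun α N E _ _ _ n hN hcn A hA e hdeg => ?_⟩
  rcases isEmpty_or_nonempty N with hNe | hNe
  · refine ⟨fun _ ν => hNe.elim ν, fun _ ν => hNe.elim ν, fun x => hNe.elim (e x 0)⟩
  have hn1 : 1 ≤ n := (Fintype.card_pos).trans_le hN
  have hc1 : c * n ^ 2 ≤ Fintype.card α := (Nat.mul_le_mul_right _ (le_max_left _ _)).trans hcn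
  have hc2 : (2 * M ^ 2 + 1) * n ^ 2 ≤ Fintype.card α :=
    (Nat.mul_le_mul_right _ (le_max_right _ _)).trans hcn
  have hnα : n ≤ Fintype.card α := by
    calc n = 1 * n := (one_mul n).symm
      _ ≤ (2 * M ^ 2 + 1) * n ^ 2 := Nat.mul_le_mul (by omega) (Nat.le_self_pow (by norm_num) n)
      _ ≤ _ := hc2
  have hM : 1 ≤ M := by
    rcases Nat.eq_zero_or_pos M with h | h
    · rw [h, zero_mul] at hA
      have h1 : 0 < Fintype.card α ^ (k + 1) := Nat.pow_pos (by omega)
      omega
    · exact h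
  -- dependent random choice
  set R : (Fin k → α) → α → Prop := fun x b => (Fin.cons b x : Fin (k + 1) → α) ∈ A with hR
  have hRA : {p : (Fin k → α) × α | R p.1 p.2}.ncard = A.ncard := by
    have hinj : Function.Injective
        (fun p : (Fin k → α) × α => (Fin.cons p.2 p.1 : Fin (k + 1) → α)) := by
      intro p p' h
      have h1 := congrFun h 0
      simp only [Fin.cons_zero] at h1
      have h2 : p.1 = p'.1 := by
        funext i
        have h3 := congrFun h i.succ
        simpa only [Fin.cons_succ] using h3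
      exact Prod.ext h2 h1
    have himg : (fun p : (Fin k → α) × α => (Fin.cons p.2 p.1 : Fin (k + 1) → α)) ''
        {p : (Fin k → α) × α | R p.1 p.2} = A := by
      ext f
      constructor
      · rintro ⟨p, hp, rfl⟩
        exact hp
      · intro hf
        refine ⟨(Fin.tail f, f 0), ?_, Fin.cons_self_tail f⟩
        show (Fin.cons (f 0) (Fin.tail f) : Fin (k + 1) → α) ∈ A
        rw [Fin.cons_self_tail]
        exact hf
    rw [← Set.ncard_image_of_injective _ hinj, himg]
  obtain ⟨S, hS1, hS2⟩ := hdrc k Δ M n (Fin k → α) α R (by simp) hM hn1 hc2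
    (by rw [hRA]; exact hA)
  -- induction hypothesis
  obtain ⟨Y', hY1, hY2⟩ := hc α N E n hN hc1 S hS1 (fun x i => e x i.succ)
    (fun i ν => hdeg i.succ ν)
  set tup : E → Fin k → α := fun x i => Y' i (e x i.succ) with htup
  set B : N → Set α := fun ν => {b | ∀ x, e x 0 = ν → R (tup x) b} with hB
  have hBn : ∀ ν, n ≤ (B ν).ncard := by
    intro ν
    rcases isEmpty_or_nonempty {x : E // e x 0 = ν} with hem | hne
    · have h1 : B ν = Set.univ := by
        rw [Set.eq_univ_iff_forall]
        intro b x hx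
        exact hem.elim ⟨x, hx⟩
      rw [h1, Set.ncard_univ, Nat.card_eq_fintype_card]
      exact hnα
    · have h1 : Fintype.card {x : E // e x 0 = ν} ≤ Fintype.card (Fin Δ) := by
        have h2 := hdeg 0 ν
        rw [Set.ncard_eq_toFinset_card'] at h2
        rw [Fintype.card_fin, Fintype.card_subtype]
        refine le_trans (le_of_eq ?_) h2
        congr 1
        ext x
        simp
      obtain ⟨g⟩ := Function.Embedding.nonempty_of_card_le h1
      have h3 := hS2 (fun j => tup (Function.invFun g j).1) (fun j => hY2 _)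
      refine h3.trans (Set.ncard_le_ncard ?_ (Set.toFinite _))
      intro b hb x hx
      have h4 := hb (g ⟨x, hx⟩)
      rw [Function.leftInverse_invFun g.injective] at h4
      exact h4
  -- Hall
  obtain ⟨y, hy1, hy2⟩ : ∃ y : N → α, Function.Injective y ∧ ∀ ν, y ν ∈ (B ν).toFinset := by
    rw [← Finset.all_card_le_biUnion_card_iff_exists_injective]
    intro s
    rcases s.eq_empty_or_nonempty with rfl | ⟨ν, hν⟩
    · simp
    · calc s.card ≤ Fintype.card N := card_le_univ s
        _ ≤ n := hN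
        _ ≤ (B ν).ncard := hBn ν
        _ = (B ν).toFinset.card := Set.ncard_eq_toFinset_card' _
        _ ≤ _ := card_le_card (subset_biUnion_of_mem (fun ν => (B ν).toFinset) hν)
  refine ⟨Fin.cons y Y', ?_, fun x => ?_⟩
  · intro i
    refine Fin.cases ?_ (fun j => ?_) i
    · rw [Fin.cons_zero]; exact hy1
    · rw [Fin.cons_succ]; exact hY1 j
  · have h1 : (fun i => (Fin.cons y Y' : Fin (k + 1) → N → α) i (e x i)) =
        (Fin.cons (y (e x 0)) (tup x) : Fin (k + 1) → α) := by
      funext i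
      refine Fin.cases ?_ (fun j => ?_) i
      · rw [Fin.cons_zero, Fin.cons_zero]
      · rw [Fin.cons_succ, Fin.cons_succ]
    rw [h1]
    have h2 := hy2 (e x 0)
    rw [Set.mem_toFinset] at h2
    exact h2 x rfl

private lemma dl_fin (hdrc : S_drc) (k : ℕ) : DlFin k := by
  induction k with
  | zero => exact dl_zero
  | succ k ih => exact dl_succ hdrc ih

theorem p_dl (hdrc : S_drc) : S_dl := by
  intro k Δ M
  obtain ⟨c, hc⟩ := dl_fin hdrc k Δ M
  refine ⟨c, fun ι α N E _ _ _ _ n hι hN hcn A hA e hdeg => ?_⟩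
  have ε : ι ≃ Fin k := Fintype.equivFinOfCardEq hι
  have hinj : Function.Injective (fun (f : ι → α) (j : Fin k) => f (ε.symm j)) := by
    intro f f' h
    funext i
    have h1 := congrFun h (ε i)
    simpa using h1
  obtain ⟨Y, hY1, hY2⟩ := hc α N E n hN hcn ((fun (f : ι → α) (j : Fin k) => f (ε.symm j)) '' A)
    (by rw [Set.ncard_image_of_injective _ hinj]; exact hA) (fun x j => e x (ε.symm j))
    (fun j ν => hdeg (ε.symm j) ν)
  refine ⟨fun i => Y (ε i), fun i => hY1 _, fun x => ?_⟩
  obtain ⟨f, hf, hf'⟩ := hY2 x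
  have h1 : (fun i => Y (ε i) (e x i)) = f := by
    funext i
    have h2 := congrFun hf' (ε i)
    simp only [Equiv.symm_apply_apply] at h2
    exact h2.symm
  rw [h1]
  exact hf

end Pool.Agent.Lib.MP_09bd9b_co
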