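import Mathlib

set_option autoImplicit false

/-!
# MP_09bd9b_co, project CD (coarse degree): statements of the pieces, with proofs in words

THEOREM. For every `D` there is `C` such that for every `s` there is `c` such that for every `n`
there is a graph `G` on at most `c * n ^ C` vertices such that in every 2-colouring of its edges
one colour contains induced copies of ALL `n`-vertex graphs `H` which are subgraphs of the strong
product of a graph `J` of maximum degree at most `D` and the complete graph on `s` vertices.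
(The maximum degree of `H` can be `(D + 1) * s - 1`, the exponent depends on `D` only.)
Consequence: for graphs with coarse doubling constant `k` the exponent depends on `k` only.

IDEA. Host vertices are tuples `(b, i, l, r, c)`: `b` in a finite graph `GB`, `i` one of `t`
classes, `l` a vector of labels from `Fin K × F`, and two polynomials `r, c` over `F` of degree less
than `q`. A pair `(w, x)` (`w` a table of labels, `x` a polynomial in two variables) gives a finite
complete local structure `vert w x b p`. By the finite Ramsey statement FIN the colouring of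
every local structure contains a homogeneous pattern of one of two kinds; by the pigeonhole
principle one pattern occurs for a positive fraction of all `(w, x)`; by the lemma DL on dense
`k`-partite hypergraphs the graph `H` is found in the host, moving `x` (first kind, the quotient `J`
is followed and the vertices of `H` over one vertex of `J` are put in one label class) or moving `w`
(second kind).
-/

namespace Pool.Agent.Lib.MP_09bd9b_co

open Finset

/-! ### Part 1: Ramsey statements -/

/-- piece RAM: Ramsey's theorem for increasing `p`-tuples. `theorem p_ram : S_ram`.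
Proof: copy or import `ramsey_aux` of `Pool/Agent/Lib/MP_2e96e9_co/Ramsey.lean` (it imports only
Mathlib and a small Defs file) with `X = Finset.univ : Finset (Fin N)`, all `ρ q = r`, and the
colouring `A ↦ f (A.orderEmbOfFin h)` if `h : A.card = p` (any value otherwise); `T` is
`Y.orderEmbOfFin`; for `s` strictly increasing the increasing enumeration of
`A = univ.map (T ∘ s)` is `T ∘ s` (`Finset.orderEmbOfFin_unique`). -/
def S_ram : Prop := ∀ (Q : Type) [Finite Q] [Nonempty Q] (p r : ℕ), ∃ N : ℕ,
  ∀ f : (Fin p → Fin N) → Q, ∃ T : Fin r → Fin N, StrictMono T ∧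
    ∃ c : Q, ∀ s : Fin p → Fin r, StrictMono s → f (fun j => T (s j)) = c

/-- piece DRC: dependent random choice. `theorem p_drc : S_drc`.
Proof. Write `q = card α`, `t = 2 * k * Δ + 2`; `1 ≤ M`, `1 ≤ n`, so `q ≥ 3`. For `b : Fin t → α`
let `A_b = {x | ∀ j, R x (b j)}` and let `deg x = {b | R x b}.ncard`. Double counting:
`∑_b |A_b| = ∑_x deg(x)^t`. The power mean inequality `(∑ f)^t ≤ card^(t-1) * ∑ f^t`
(Mathlib: `inner_le_Lp_mul_Lq`, `Real.pow_sum_div_card_le_sum_pow`,
`Real.pow_arith_mean_le_arith_mean_pow`; go to `ℝ`) gives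
`q^((k+1) t) ≤ M^t * (∑ deg)^t ≤ M^t * (q^k)^(t-1) * ∑_x deg(x)^t`, hence
(1) `q^(k+t) ≤ M^t * ∑_b |A_b|`.
Call `τ : Fin Δ → X` bad if `{b : α | ∀ j, R (τ j) b}.ncard < n`. The number of pairs
(`τ` bad, `b : Fin t → α`) with `τ j ∈ A_b` for all `j` is at most `(q^k)^Δ * n^t` (for fixed bad
`τ` all values of `b` are in a set with fewer than `n` elements). Suppose that every `b` satisfies
`2 * M^t * |A_b| < q^k` or has a bad `τ` in `A_b`. Then
`2 * M^t * ∑_b |A_b| ≤ q^t * q^k + 2 * M^t * q^k * (q^(kΔ) * n^t)`, with (1):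
`q^(k+t) ≤ 2 * M^t * q^(k + kΔ) * n^t`, so `q^(kΔ+2) ≤ 2 * (M n)^t = 2 * ((M n)^2)^(kΔ+1)`
(`t - kΔ = kΔ + 2`, `t = 2 (kΔ + 1)`). But
`q^(kΔ+2) > q^(kΔ+1) ≥ (2 (M n)^2)^(kΔ+1) ≥ 2 * ((M n)^2)^(kΔ+1)`. Contradiction; take
`S = A_b` for a `b` which satisfies neither. -/
def S_drc : Prop := ∀ (k Δ M n : ℕ) (X α : Type) [Fintype X] [Fintype α] (R : X → α → Prop),
  Fintype.card X = Fintype.card α ^ k → 1 ≤ M → 1 ≤ n →
  (2 * M ^ 2 + 1) * n ^ 2 ≤ Fintype.card α →
  Fintype.card α ^ (k + 1) ≤ M * {p : X × α | R p.1 p.2}.ncard →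
  ∃ S : Set X, Fintype.card α ^ k ≤ 2 * M ^ (2 * k * Δ + 2) * S.ncard ∧
    ∀ τ : Fin Δ → X, (∀ j, τ j ∈ S) → n ≤ {b : α | ∀ j, R (τ j) b}.ncard

/-- piece DL: a dense `k`-partite `k`-uniform hypergraph `A` (`ι` the set of the `k` parts, every
part is a copy of `α`) contains every `k`-partite pattern of bounded degree: the pattern has the
set `N` of vertices in every part and the edges `e x`, `x ∈ E`, and the assignment `Y` is injective
on every part. `theorem p_dl (hdrc : S_drc) : S_dl`.
Proof. It is enough to treat `ι = Fin k` (transport along an equivalence); induction on `k`, for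
all `M`. `k = 0`: `A` is nonempty (`1 ≤ M * A.ncard`), so it contains the only function. Step from
`k` to `k + 1`, with `c' = max (constant for k, Δ, 2 * M^(2kΔ+2)) (2 * M^2 + 1)`: if `N` is empty
then `E` is empty and there is nothing to do, so `1 ≤ n`, `α` is nonempty and `1 ≤ M`. Write an
element of `Fin (k+1) → α` as `(x, b)` with `x : Fin k → α` and `b : α` the last coordinate
(`Fin.snoc`, or the first one, `Fin.cons`; `Fin.consEquiv`, `Fin.snocEquiv`). Apply DRC to
`X = Fin k → α`, `R x b = ((x, b) ∈ A)`: this gives `S`. Apply the induction hypothesis to `S` (with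
`2 * M^(2kΔ+2)` for `M`) and the restricted edges: `Y`. For `ν ∈ N` the edges `x` with
`e x (last) = ν` are at most `Δ` and give tuples `(Y (e x))` in `S`: so (if there is at least one
such edge; take `τ : Fin Δ → X` with range the set of these tuples) at least `n` elements `b`
satisfy `(Y (e x), b) ∈ A` for all of them; if there is no such edge take all of `α`, `n ≤ card α`.
Choose distinct such `b` for the different `ν` (`card N ≤ n`; Hall's theorem
`Finset.all_card_le_biUnion_card_iff_exists_injective`, or greedily). -/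
def S_dl : Prop := ∀ k Δ M : ℕ, ∃ c : ℕ, ∀ (ι α N E : Type) [Fintype ι] [Fintype α] [Fintype N]
  [Fintype E] (n : ℕ), Fintype.card ι = k → Fintype.card N ≤ n → c * n ^ 2 ≤ Fintype.card α →
  ∀ A : Set (ι → α), Fintype.card α ^ k ≤ M * A.ncard →
  ∀ e : E → ι → N, (∀ (i : ι) (ν : N), {x : E | e x i = ν}.ncard ≤ Δ) →
  ∃ Y : ι → N → α, (∀ i, Function.Injective (Y i)) ∧ ∀ x : E, (fun i => Y i (e x i)) ∈ A

/-- piece ORD: the ordered induced Ramsey theorem with a finite set `C` of colours.
`theorem p_ord (hram : S_ram) (hdl : S_dl) : S_ord`.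
Proof. `a := the number N of S_ram for Q = C, p = 2, r = u`. Let `q` be large,
`B = Fin a × (Fin a → Fin q)` with `(j, v) ~ (j', v')` iff `j ≠ j'` and `v j' = v' j`.
For `ω : Fin a × Fin a → Fin q` (only the values at pairs `(j, j')` with `j ≤ j'` are used) let
`b_j ω = (j, fun j' => ω (min j j', max j j'))`; these vertices are pairwise adjacent. Given `χ`,
for every `ω` Ramsey's theorem for `s ↦ χ (b_{s 0} ω) (b_{s 1} ω)` gives `z : Fin u → Fin a`
strictly increasing and a colour `c` with `χ (b_{z i} ω) (b_{z j} ω) = c` for `i < j`. Some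
`(z, c)` occurs for at least one `M`-th of all `ω`, `M = a^u * card C`; let `A` be the set of these
`ω`. Use DL with the parts `Fin a × Fin a`, `α = Fin q`, `N = Fin u ⊕ Unit ⊕ (Fin u × Fin u)`,
`E = {(i, j) | i < j, U.Adj i j}`. For `i : Fin u` and `j' : Fin a` let `nm i j'` be the name
`inr (inl ())` if `j' = z j` for some `j` with `U.Adj i j`, and `inl i` otherwise. The edge
`(i, j) ∈ E` has in the part `(x, y)` the name: `nm i y` if `x = z i`; else `nm i x` if `y = z i`;
else `nm j y` if `x = z j`; else `nm j x` if `y = z j`; else `inr (inr (i, j))` (for `x = z i`,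
`y = z j` both descriptions give the common name, as `U.Adj i j`). With `Y` from DL put
`φ i = (z i, fun j' => Y (min (z i) j', max (z i) j') (nm i j'))`. For `i ≠ j`: `φ i ~ φ j` iff
`Y part (nm i (z j)) = Y part (nm j (z i))` (the same part) iff `nm i (z j) = nm j (z i)` iff
`U.Adj i j` (otherwise these names are `inl i` and `inl j`). For `i < j` adjacent the element
`ω ∈ A` of the edge `(i, j)` satisfies `b_{z i} ω = φ i`, `b_{z j} ω = φ j`, so the colour is
`c`. -/
def S_ord : Prop := ∀ (u : ℕ) (U : SimpleGraph (Fin u)) (C : Type) [Finite C] [Nonempty C],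
  ∃ (B : Type) (_ : Fintype B) (GB : SimpleGraph B), ∀ χ : B → B → C,
    ∃ (φ : U ↪g GB) (c : C), ∀ a b : Fin u, a < b → U.Adj a b → χ (φ a) (φ b) = c

/-- the positions of a local structure: a class and a label index for every one of the `q`
label coordinates -/
abbrev Pos (q t K : ℕ) : Type := Fin t × (Fin q → Fin K)

/-- homogeneous pattern of the first kind: classes `i κ`, label indices `k κ` (any two of these
vectors agree somewhere) -/
def RelP {q t K : ℕ} (g : Pos q t K → Pos q t K → Bool) (κ₀ : Bool) (i : Fin q → Fin t)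
    (k : Fin q → Fin q → Fin K) : Prop :=
  StrictMono i ∧ (∀ κ κ', ∃ a, k κ a = k κ' a) ∧ ∀ κ κ', κ ≤ κ' → g (i κ, k κ) (i κ', k κ') = κ₀

/-- homogeneous pattern of the second kind -/
def StrP {q t K : ℕ} (u : ℕ) (g : Pos q t K → Pos q t K → Bool) (κ₀ : Bool) (i : Fin u → Fin t)
    (e : Fin q → Fin q → Fin K) : Prop :=
  StrictMono i ∧ (∀ a, StrictMono (e a)) ∧ ∀ a b : Fin u, a < b → ∀ m m' : Fin q → Fin q,
    (∃ x, m x = m' x) → g (i a, fun x => e x (m x)) (i b, fun x => e x (m' x)) = κ₀

/-- piece GRA: `theorem p_gra (hram : S_ram) : S_gra`.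
Proof. Let `R = max q u + 1`, `p = 2 * (q + 1)`, `r = (q + 1) * R`, colours
`Q = ((Fin q → Fin 3) → Bool) × Bool`, `N` from `S_ram`, `t = K = N`. For an increasing tuple `s`
put `lo₀ = s 0`, `hi₀ = s 1`, and for `a : Fin q` `lo a = s (2a+2)`, `hi a = s (2a+3)`. For
`π : Fin q → Fin 3` (0 means `=`, 1 means `<`, 2 means `>`) put `c_π(s) = g (lo₀, u_π) (hi₀, w_π)`
where `u_π a = if π a = 2 then hi a else lo a`, `w_π a = if π a = 1 then hi a else lo a`; colour of
`s` = `(c_π(s))_π` and `g (lo₀, lo) (lo₀, lo)`. Let `T` be homogeneous with values `γ_π`, `φ`.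
(i) Let `x < x' < R` and `k, k' : Fin q → ℕ` with `k a, k' a < R - 1`, and let `π` be the pattern
of `(k a, k' a)`. Then `g (T x, a ↦ T ((a+1) R + k a)) (T x', a ↦ T ((a+1) R + k' a)) = γ_π`: use
the tuple with `s 0 = x`, `s 1 = x'`, `s (2a+2) = (a+1) R + min (k a) (k' a)`,
`s (2a+3) = (a+1) R + max (k a) (k' a)` (or `(a+1) R + k a + 1` if `k a = k' a`).
(ii) `g (T x, k) (T x, k) = φ` in the same way for `x < R - 1`.
Case 1: there is `π` with `π a₀ = 0` for some `a₀` and `γ_π = φ`. Then `κ₀ = φ`, `i κ = T κ`,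
`k κ a = T ((a+1) R + d)` with `d = 0` if `π a = 0`, `d = κ` if `π a = 1`, `d = q - 1 - κ` if
`π a = 2`. Case 2: `γ_π ≠ φ` for all `π` with a zero. Then `κ₀ = !φ`, `i θ = T θ`,
`e a m = T ((a+1) R + m)`. -/
def S_gra : Prop := ∀ (q u : ℕ), 0 < q → ∃ t K : ℕ, ∀ g : Pos q t K → Pos q t K → Bool,
  ∃ κ₀ : Bool, (∃ i k, RelP g κ₀ i k) ∨ (∃ i e, StrP u g κ₀ i e)

/-- piece FIN: the finite Ramsey statement. `theorem p_fin (hord : S_ord) (hgra : S_gra) : S_fin`.
Proof. Take `t, K` from `S_gra` and `B, GB` from `S_ord` for the colour set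
`C = Pos q t K → Pos q t K → Bool`; for given `Φ` take `φ, c` from `S_ord` and apply `S_gra` to
`g = c`. -/
def S_fin : Prop := ∀ (q u : ℕ) (U : SimpleGraph (Fin u)), 0 < q →
  ∃ (t K : ℕ) (B : Type) (_ : Fintype B) (GB : SimpleGraph B),
    ∀ Φ : B → B → Pos q t K → Pos q t K → Bool, ∃ (φ : U ↪g GB) (κ₀ : Bool)
      (g : Pos q t K → Pos q t K → Bool), (∀ a b, a < b → U.Adj a b → Φ (φ a) (φ b) = g) ∧
      ((∃ i k, RelP g κ₀ i k) ∨ (∃ i e, StrP u g κ₀ i e))

/-! ### Part 2: the host graph -/

/-- vertices of the host -/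
abbrev HV (q t K : ℕ) (B F : Type) : Type :=
  B × Fin t × (Fin q → Fin K × F) × (Fin q → F) × (Fin q → F)

/-- value at `z` of the polynomial with the coefficients `r` -/
def evp {q : ℕ} {F : Type} [Field F] (r : Fin q → F) (z : F) : F := ∑ j, r j * z ^ (j : ℕ)

/-- the host graph; `cl` are the `t` different elements of the field that belong to the classes -/
def host {q t K : ℕ} {B F : Type} [Field F] (GB : SimpleGraph B) (cl : Fin t → F) :
    SimpleGraph (HV q t K B F) where
  Adj x y := GB.Adj x.1 y.1 ∧ (x.2 = y.2 ∨ (x.2.1 ≠ y.2.1 ∧ (∃ a, x.2.2.1 a = y.2.2.1 a) ∧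
    evp x.2.2.2.1 (cl y.2.1) = evp y.2.2.2.2 (cl x.2.1) ∧
    evp x.2.2.2.2 (cl y.2.1) = evp y.2.2.2.1 (cl x.2.1)))
  symm := ⟨by
    rintro x y ⟨h, h'⟩
    refine ⟨h.symm, ?_⟩
    rcases h' with h' | ⟨h1, ⟨a, h2⟩, h3, h4⟩
    · exact Or.inl h'.symm
    · exact Or.inr ⟨h1.symm, ⟨a, h2.symm⟩, h4.symm, h3.symm⟩⟩
  loopless := ⟨fun x h => GB.irrefl h.1⟩

/-- the vertices of the local structure of `(w, x)` -/
def vert {q t K : ℕ} {B F : Type} [Field F] (cl : Fin t → F) (w : Fin q → Fin K → F)
    (x : Fin q → Fin q → F) (b : B) (p : Pos q t K) : HV q t K B F :=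
  (b, p.1, (fun a => (p.2 a, w a (p.2 a))), (fun k => ∑ j, x j k * cl p.1 ^ (j : ℕ)),
    (fun j => ∑ k, x j k * cl p.1 ^ (k : ℕ)))

/-- equal or adjacent -/
def Nb {W : Type} (J : SimpleGraph W) (x y : W) : Prop := x = y ∨ J.Adj x y

/-- `H` is described by types: `β` is the projection to the quotient `J`, `κ` a colouring of `J`
with `q` colours which is injective on sets of diameter at most `3`, `ϑ z` the type of `z`; two
vertices over vertices of `J` at distance at most `2` are adjacent in `H` iff their types are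
adjacent in `U`. -/
structure Typed {q u : ℕ} (U : SimpleGraph (Fin u)) (kap : Fin u → Fin q) {V : Type}
    (H : SimpleGraph V) (W : Type) where
  J : SimpleGraph W
  β : V → W
  κ : W → Fin q
  ϑ : V → Fin u
  hedge : ∀ z z', H.Adj z z' → Nb J (β z) (β z')
  hcol : ∀ w x y w', Nb J w x → Nb J x y → Nb J y w' → κ w = κ w' → w = w'
  htyp : ∀ z z' x, Nb J (β z) x → Nb J x (β z') → (H.Adj z z' ↔ U.Adj (ϑ z) (ϑ z'))
  hinj : ∀ z z', β z = β z' → ϑ z = ϑ z' → z = z'
  hkap : ∀ z, kap (ϑ z) = κ (β z)

/-- piece VAN. `theorem p_van : S_van`.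
Proof: the map is `x ↦ V x Vᵀ` for the Vandermonde matrix of `v` (`Matrix.vandermonde`,
`Matrix.det_vandermonde_ne_zero_iff`), which is invertible. -/
def S_van : Prop := ∀ (q : ℕ) (F : Type) [Field F] (v : Fin q → F), Function.Injective v →
  Function.Bijective (fun (x : Fin q → Fin q → F) (a b : Fin q) =>
    ∑ j, ∑ k, x j k * v a ^ (j : ℕ) * v b ^ (k : ℕ))

/-- piece EVI: a polynomial of degree less than `q` is determined by its values at `q` different
points, and every vector of values occurs. `theorem p_evi : S_evi`. Proof: the map is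
multiplication with the invertible matrix `Matrix.vandermonde v`. -/
def S_evi : Prop := ∀ (q : ℕ) (F : Type) [Field F] (v : Fin q → F), Function.Injective v →
  Function.Bijective (fun (r : Fin q → F) (a : Fin q) => evp r (v a))

/-- `κ` is injective on the vertex sets of diameter at most `3` -/
def Col3 {q : ℕ} {W : Type} (J : SimpleGraph W) (κ : W → Fin q) : Prop :=
  ∀ w x y w', Nb J w x → Nb J x y → Nb J y w' → κ w = κ w' → w = w'

/-- piece RLY: the row and column polynomials for patterns of the first kind.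
`theorem p_rly (hdl : S_dl) (hvan : S_van) (hevi : S_evi) : S_rly`.
Proof. `c` = constant of DL for `k = q^2`, `Δ = q^3`, `M`, multiplied by `(2 + q)^2` (the names
are `N = W ⊕ W ⊕ (W × Fin q)`, `card N ≤ (2 + q) * n`).
Put `nb β μ` = the vertex `β'` with `Nb J β β'` and `κ β' = μ` if there is one (it is unique by
`Col3`), otherwise `β`. DL: parts `Fin q × Fin q`, `α = F`, `A'` = the image of `A` under the
bijection VAN for `v` (uncurried), edges `E = W × Fin q`; names in the part `(λ, μ)`:
`row β = inl β`; `col β λ` (for the part `(λ, κ β)`) `= inl β'` if there is `β'` with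
`Nb J β β'`, `κ β' = λ`, else `inr (inl β)`. The edge `(β, ρ)`, with `β' = nb β ρ`, has in the part
`(λ, μ)` the name: `row β` if `λ = κ β`; else `col β λ` if `μ = κ β`; else `row β'` if `λ = κ β'`;
else `col β' λ` if `μ = κ β'`; else `inr (inr (β, ρ))`. Degrees: the owner `γ` of the name (`γ` for
`inl γ`, `inr (inl γ)`, `inr (inr (γ, ρ))`) is at distance at most `2` from the first vertex `β` of
the edge: `Nb J γ μ`, `Nb J μ β` for some `μ`; `(β, ρ) ↦ (κ μ, κ β, ρ)` is injective for fixed `γ`
by `Col3`, so there are at most `q^3` edges. Let `Y` be the assignment.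
For `β : W` let `r β`, `c β : Fin q → F` be the polynomials (EVI) with
`evp (r β) (v μ) = Y (κ β, μ) (row β)` and `evp (c β) (v λ) = Y (λ, κ β) (col β λ)`.
First claim: if `Nb J β β'`, the edge `(β, κ β')` (so `nb β (κ β') = β'`) gives a matrix of values,
hence `x ∈ A` with `∑ j, ∑ k, x j k * v λ^j * v μ^k = Y (λ, μ) (name)`. To see the four equations
compare the values at all `v μ` (EVI injective): in the part `(κ β, μ)` the name is `row β`; in the
part `(λ, κ β)` it is `col β λ` (for `λ = κ β`: `row β = inl β = col β (κ β)`); for `β' ≠ β` (then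
`κ β' ≠ κ β`): in the part `(κ β', μ)` it is `row β'` (for `μ = κ β`: `col β (κ β') = inl β'`), and
in the part `(λ, κ β')` it is `col β' λ` (for `λ = κ β`: `row β = inl β = col β' (κ β)`; for
`λ = κ β'`: `row β' = inl β' = col β' (κ β')`).
Second claim: evaluate at `v (κ β)`, `Y` is injective. Third claim: the two values are
`Y (κ β, κ β') (inl β)` and `Y (κ β, κ β') (col β' (κ β))`, so `inl β = col β' (κ β)` and
`Nb J β' β`. -/
def S_rly : Prop := ∀ q M : ℕ, ∃ c : ℕ, ∀ (F : Type) [Field F] [Fintype F] (v : Fin q → F)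
  (A : Set (Fin q → Fin q → F)), Function.Injective v →
  Fintype.card F ^ (q ^ 2) ≤ M * A.ncard →
  ∀ (n : ℕ) (W : Type) [Fintype W] (J : SimpleGraph W) (κ : W → Fin q), Col3 J κ →
  Fintype.card W ≤ n → c * n ^ 2 ≤ Fintype.card F →
  ∃ r c : W → Fin q → F,
    (∀ β β', Nb J β β' → ∃ x ∈ A,
      (fun k => ∑ j, x j k * v (κ β) ^ (j : ℕ)) = r β ∧
      (fun j => ∑ k, x j k * v (κ β) ^ (k : ℕ)) = c β ∧
      (fun k => ∑ j, x j k * v (κ β') ^ (j : ℕ)) = r β' ∧
      (fun j => ∑ k, x j k * v (κ β') ^ (k : ℕ)) = c β') ∧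
    (∀ β β', κ β = κ β' → r β = r β' → β = β') ∧
    ∀ β β', evp (r β) (v (κ β')) = evp (c β') (v (κ β)) → Nb J β β'

/-- piece REL: the embedding for patterns of the first kind.
`theorem p_rel (h : S_rly) : S_rel`.
Proof. Let `T` be the `Typed` structure (`J = T.J`, `β = T.β`, ...), `v κ = cl (i κ)` (injective).
Apply RLY to the dense set `A` of the statement.
EMBEDDING: `f z = (φ (ϑ z), i κ, (fun a => (k κ a, w a (k κ a))), r β, c β)` with `β = β z`,
`κ = κ (β z)`; for the `x` of RLY for a pair containing `β` it is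
`vert cl w x (φ (ϑ z)) (i κ, k κ)`.
Injective: `ϑ z = ϑ z'` (`φ` injective), so `κ (β z) = κ (β z')` by `hkap`, `β z = β z'` by the
second property in RLY, `z = z'` by `hinj`.
`H.Adj z z' →` host adjacency: types adjacent by `htyp` (with `x = β z`); if `β = β'` the second
components are equal; if `J.Adj β β'` then `κ β ≠ κ β'` (`hcol`), so the classes are different, the
label vectors agree somewhere, and the two equations between values follow from the first property
(both sides are values of the same `x` at `(v κ, v κ')` resp. `(v κ', v κ)`; exchange the sums).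
Host adjacency `→ H.Adj`: `U.Adj (ϑ z) (ϑ z')`. If the second components are equal then
`i κ = i κ'` and `r β = r β'`, so `β = β'`. Otherwise `evp (r β) (v κ') = evp (c β') (v κ)`, so
`Nb J β β'` by the third property. Now `htyp` with `x = β z`.
Colours: for `H.Adj z z'` let `ϑ z < ϑ z'` (otherwise exchange, `col` is symmetric; they are
different because `U.Adj`). The pair `(β z, β z')` is `Nb` by `hedge`; use the `x` of the first
property and the definition of the dense set, with `kap (ϑ z) = κ (β z)`. -/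
def S_rel : Prop := ∀ q M : ℕ, ∃ c : ℕ, ∀ (u : ℕ) (U : SimpleGraph (Fin u)) (kap : Fin u → Fin q)
  (t K : ℕ) (B F : Type) [Field F] [Fintype F] (GB : SimpleGraph B) (cl : Fin t → F)
  (φ : U ↪g GB) (κ₀ : Bool) (i : Fin q → Fin t) (k : Fin q → Fin q → Fin K)
  (w : Fin q → Fin K → F) (col : HV q t K B F → HV q t K B F → Bool),
  Function.Injective cl → Function.Injective i → (∀ κ κ', ∃ a, k κ a = k κ' a) →
  (∀ x y, col x y = col y x) →
  Fintype.card F ^ (q ^ 2) ≤ M * {x : Fin q → Fin q → F | ∀ a b : Fin u, a < b → U.Adj a b →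
    col (vert cl w x (φ a) (i (kap a), k (kap a)))
      (vert cl w x (φ b) (i (kap b), k (kap b))) = κ₀}.ncard →
  ∀ (n : ℕ) (V W : Type) [Fintype W] (H : SimpleGraph V), Typed U kap H W → Fintype.card W ≤ n →
  c * n ^ 2 ≤ Fintype.card F →
  ∃ f : H ↪g host (K := K) (q := q) GB cl, ∀ z z', H.Adj z z' → col (f z) (f z') = κ₀

/-- piece STY: the labels for patterns of the second kind. `theorem p_sty (hdl : S_dl) : S_sty`.
Proof. `c` = constant of DL for `k = q * K`, `Δ = q^3`, `M`, multiplied by `(1 + q)^2`.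
`nb` as in piece RLY. For `λ : Fin q`, `β : W` let `rep λ β = nb β λ` (the vertex of class
`λ` equal or adjacent to `β` if there is one, else `β`); always `Nb J β (rep λ β)`.
(R1) `rep (κ β) β = β`, and `rep (κ β) β' = β` if `Nb J β β'`. (R2) if `rep λ β = rep λ β'` then
`Nb J β ρ`, `Nb J ρ β'` for `ρ = rep λ β`. (R3) if `Nb J β β'` then `rep λ β`, `β`, `β'`,
`rep λ β'` is a path of length `3`, so `rep λ β = rep λ β'` if their `κ` are equal.
DL: parts `Fin q × Fin K`, `α = F`, `A` (uncurried), names `N = W ⊕ (W × Fin q)`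
(`card N ≤ (1 + q) * n`), edges `E = W × Fin q`; the edge `(β, μ)`, with
`β' = nb β μ`, has in the part `(a, j)` the name: `inl (rep a β)` if `j = e a (κ (rep a β))`; else
`inl (rep a β')` if `j = e a (κ (rep a β'))`; else `inr (β, μ)`. Degrees at most `q^3`, as in RLY.
Let `Y` be the assignment, `m β a = κ (rep a β)`, `val β a = Y (a, e a (m β a)) (inl (rep a β))`.
First claim: `m β (κ β) = κ β = m β' (κ β)` by (R1). For `w` = the element of `A` of the edge
`(β, κ β')`: `w a (e a (m β a)) = val β a` by the first case, `w a (e a (m β' a)) = val β' a` by the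
second case, or if `e a (m β' a) = e a (m β a)` then `m β' a = m β a` and by (R3)
`rep a β = rep a β'`.
Third claim: `Y` injective gives `rep a β = rep a β'`, now (R2). Second claim: the same with
`a = κ β`, and both are `β` resp. `β'` by (R1). -/
def S_sty : Prop := ∀ q K M : ℕ, ∃ c : ℕ, ∀ (F : Type) [Fintype F] (e : Fin q → Fin q → Fin K)
  (A : Set (Fin q → Fin K → F)), (∀ a, Function.Injective (e a)) →
  Fintype.card F ^ (q * K) ≤ M * A.ncard →
  ∀ (n : ℕ) (W : Type) [Fintype W] (J : SimpleGraph W) (κ : W → Fin q), Col3 J κ →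
  Fintype.card W ≤ n → c * n ^ 2 ≤ Fintype.card F →
  ∃ (m : W → Fin q → Fin q) (val : W → Fin q → F),
    (∀ β β', Nb J β β' → m β (κ β) = m β' (κ β) ∧ ∃ w ∈ A,
      (∀ a, w a (e a (m β a)) = val β a) ∧ ∀ a, w a (e a (m β' a)) = val β' a) ∧
    (∀ β β', κ β = κ β' → m β (κ β) = m β' (κ β) → val β (κ β) = val β' (κ β) → β = β') ∧
    ∀ β β' a, m β a = m β' a → val β a = val β' a → ∃ ρ, Nb J β ρ ∧ Nb J ρ β'

/-- piece STR: the embedding for patterns of the second kind. `theorem p_str (h : S_sty) : S_str`.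
Proof. Let `T` be the `Typed` structure. Apply STY to the dense set `A` of the statement.
EMBEDDING: `f z = (φ (ϑ z), i (ϑ z), (fun a => (e a (m β a), val β a)), row and column polynomial
of x at cl (i (ϑ z)), as in vert)` with `β = β z`; for the `w` of STY for a pair containing `β` it
is `vert cl w x (φ (ϑ z)) (i (ϑ z), fun a => e a (m β a))`.
Injective: `ϑ z = ϑ z'`, so `κ (β z) = κ (β z')` by `hkap`; the labels and `e a` injective give
`m` and `val` equal, so `β z = β z'` by the second property, `z = z'` by `hinj`.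
`H.Adj z z' →` host adjacency: `U.Adj (ϑ z) (ϑ z')` by `htyp`, hence the classes are different;
the labels agree at `a = κ (β z)` by the first property (`m` equal and the same `w`); the two
equations between values hold because both vertices come from the same `x` (exchange the sums).
Host adjacency `→ H.Adj`: `U.Adj (ϑ z) (ϑ z')`; if the second components were equal, `i` injective
gives `ϑ z = ϑ z'`, contradiction; otherwise the labels agree at some `a`: third property and
`htyp`.
Colours: as in REL, with the `w` of the first property and `m β`, `m β'` for `m`, `m'` in the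
definition of the dense set. -/
def S_str : Prop := ∀ q K M : ℕ, ∃ c : ℕ, ∀ (u : ℕ) (U : SimpleGraph (Fin u))
  (kap : Fin u → Fin q) (t : ℕ) (B F : Type) [Field F] [Fintype F] (GB : SimpleGraph B)
  (cl : Fin t → F) (φ : U ↪g GB) (κ₀ : Bool) (i : Fin u → Fin t) (e : Fin q → Fin q → Fin K)
  (x : Fin q → Fin q → F) (col : HV q t K B F → HV q t K B F → Bool),
  Function.Injective i → (∀ a, Function.Injective (e a)) → (∀ x y, col x y = col y x) →
  Fintype.card F ^ (q * K) ≤ M * {w : Fin q → Fin K → F | ∀ a b : Fin u, a < b → U.Adj a b →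
    ∀ m m' : Fin q → Fin q, (∃ y, m y = m' y) →
    col (vert cl w x (φ a) (i a, fun y => e y (m y)))
      (vert cl w x (φ b) (i b, fun y => e y (m' y))) = κ₀}.ncard →
  ∀ (n : ℕ) (V W : Type) [Fintype W] (H : SimpleGraph V), Typed U kap H W → Fintype.card W ≤ n →
  c * n ^ 2 ≤ Fintype.card F →
  ∃ f : H ↪g host (K := K) (q := q) GB cl, ∀ z z', H.Adj z z' → col (f z) (f z') = κ₀

/-! ### Part 3: the class of graphs -/

/-- `H` is a subgraph of the strong product of a graph `J` of maximum degree at most `D` and the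
complete graph on `s` vertices -/
def Coarse (D s : ℕ) {V : Type} (H : SimpleGraph V) : Prop :=
  ∃ (W : Type) (J : SimpleGraph W) (β : V → W), (∀ w, (J.neighborSet w).encard ≤ D) ∧
    (∀ w, (β ⁻¹' {w}).encard ≤ s) ∧ ∀ z z', H.Adj z z' → β z = β z' ∨ J.Adj (β z) (β z')

/-- piece COL: reduction to a finite quotient with a colouring and slots. `theorem p_col : S_col`.
Proof. Replace `W` by the range of `β` and `J` by the induced graph; it is finite. The relation
`w ≠ w'` and there are `x, y` with `Nb J w x`, `Nb J x y`, `Nb J y w'` is symmetric and every `w` is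
related to at most `(D + 1)^3 - 1` vertices; greedy colouring (induction on the finite set of
vertices, or on a `Finset`) gives `κ` with `(D + 1)^3` colours. `σ`: an injection of every fibre
into `Fin s`. -/
def S_col : Prop := ∀ (D s n : ℕ) (V : Type) [Fintype V] (H : SimpleGraph V),
  Fintype.card V ≤ n → Coarse D s H →
  ∃ (W : Type) (_ : Fintype W) (J : SimpleGraph W) (β : V → W) (κ : W → Fin ((D + 1) ^ 3))
    (σ : V → Fin s), Fintype.card W ≤ n ∧ (∀ z z', H.Adj z z' → Nb J (β z) (β z')) ∧
    Col3 J κ ∧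
    ∀ z z', β z = β z' → σ z = σ z' → z = z'

/-- piece TYP: the types. `theorem p_typ : S_typ`.
Proof. Types are triples `(κ, σ, b)` with `b : Fin q × Fin s → Bool`;
`Fin u` is `Fin q × R` with `R = Fin s × (Fin q × Fin s → Bool)`, encoded by `finProdFinEquiv` (so
that the order is lexicographic with `κ` first) and `Fintype.equivFin R`; `kap` is the first
component (monotone). `U.Adj (κ, σ, b) (κ', σ', b')` iff `(κ, σ) ≠ (κ', σ')`, `b (κ', σ')` and
`b' (κ, σ)`. The type of `z` is `(κ (β z), σ z, b)` with `b (κ', σ')` = there is `z''` with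
`H.Adj z z''`, `κ (β z'') = κ'`, `σ z'' = σ'`. For `htyp` from right to left: `b (κ (β z'), σ z')`
gives `z''`, and `β z'', β z, x, β z'` is a path, so `β z'' = β z'` by the property of `κ`, and
`z'' = z'`. From left to right: if `(κ, σ)` were equal then `β z = β z'` and `z = z'`. -/
def S_typ : Prop := ∀ q s : ℕ, ∃ (u : ℕ) (U : SimpleGraph (Fin u)) (kap : Fin u → Fin q),
  Monotone kap ∧ ∀ (V W : Type) (H : SimpleGraph V) (J : SimpleGraph W) (β : V → W)
    (κ : W → Fin q) (σ : V → Fin s), (∀ z z', H.Adj z z' → Nb J (β z) (β z')) → Col3 J κ →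
    (∀ z z', β z = β z' → σ z = σ z' → z = z') → Nonempty (Typed U kap H W)

/-- piece PIG: pigeonhole principle. `theorem p_pig : S_pig`.
Proof. Some value `v : P ⊕ Q` of `(w, x) ↦ δ w x` is taken by at least
`card Y * card X / (card P + card Q)` pairs (`Finset.exists_le_card_fiber_of_mul_le_card_of_maps_to`
or a sum over the fibres); if `v = inl d` then some `w` has at least
`card X / (card P + card Q)` elements `x`, if `v = inr d` then some `x` has enough `w`. -/
def S_pig : Prop := ∀ (X Y P Q : Type) [Fintype X] [Fintype Y] [Fintype P] [Fintype Q]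
  [Nonempty X] [Nonempty Y] (δ : Y → X → P ⊕ Q),
  (∃ (d : P) (w : Y), Fintype.card X ≤
    (Fintype.card P + Fintype.card Q) * {x : X | δ w x = Sum.inl d}.ncard) ∨
  (∃ (d : Q) (x : X), Fintype.card Y ≤
    (Fintype.card P + Fintype.card Q) * {w : Y | δ w x = Sum.inr d}.ncard)

/-- every ball of radius `2 ρ` is covered by `k` balls of radius `ρ`, for all `ρ ≥ R` -/
def CoarseDoubling (k R : ℕ) {V : Type} (H : SimpleGraph V) : Prop :=
  ∀ ρ : ℕ, R ≤ ρ → ∀ x : V, ∃ S : Set V, S.encard ≤ k ∧
    ∀ y : V, H.edist x y ≤ 2 * ρ → ∃ z ∈ S, H.edist z y ≤ ρ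

/-- piece DBL: graphs with coarse doubling constant `k` and bounded degree are coarse.
`theorem p_dbl : S_dbl`.
Proof. `ρ = R + 1`, `s = (Δ + 1)^(2 ρ)`. Let `Z` be a maximal set of vertices with pairwise
distances `> 2 ρ` (`V` is finite); `β v` = an element of `Z` at distance at most `2 ρ` from `v`; the
fibre of `z` is contained in the ball of radius `2 ρ`, which has at most `(Δ + 1)^(2 ρ)` elements.
`J` on `Z`: `z ≠ z'` and the distance is at most `8 ρ` (`4 ρ + 1 ≤ 8 ρ`). The ball of radius
`8 ρ` is covered by `k` balls of radius `4 ρ`, by `k^2` balls of radius `2 ρ`, by `k^3` balls of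
radius `ρ`, and each of these contains at most one element of `Z`. -/
def S_dbl : Prop := ∀ k Δ R : ℕ, ∃ s : ℕ, ∀ (V : Type) [Fintype V] (H : SimpleGraph V),
  (∀ v, (H.neighborSet v).ncard ≤ Δ) → CoarseDoubling k R H → Coarse (k ^ 3) s H

/-! ### Part 4: the main theorem -/

/-- one colour class of every 2-colouring of `G` contains induced copies of all `n`-vertex graphs
with the property `P` -/
def Universal (n : ℕ) (P : SimpleGraph (Fin n) → Prop) {N : ℕ} (G : SimpleGraph (Fin N)) : Prop :=
  ∀ col : Sym2 (Fin N) → Bool, ∃ b : Bool, ∀ H : SimpleGraph (Fin n), P H →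
    ∃ f : H ↪g G, ∀ u v : Fin n, H.Adj u v → col s(f u, f v) = b

/-- piece MAIN (the owner writes it): from FIN, REL, STR, COL, TYP, PIG, with `q = (D + 1)^3`, a
prime number `p` between `a` and `2 a` for `a = (c_R + c_S + t + 2) * n^2`, `F = ZMod p`. -/
def S_main : Prop := ∀ D : ℕ, ∃ C : ℕ, ∀ s : ℕ, ∃ c : ℕ, ∀ n : ℕ, ∃ N : ℕ, N ≤ c * n ^ C ∧
  ∃ G : SimpleGraph (Fin N), Universal n (fun H => Coarse D s H) G

/-- the corollary for coarsely doubling graphs -/
def S_cor : Prop := ∀ k : ℕ, ∃ C : ℕ, ∀ Δ R : ℕ, ∃ c : ℕ, ∀ n : ℕ, ∃ N : ℕ, N ≤ c * n ^ C ∧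
  ∃ G : SimpleGraph (Fin N), Universal n
    (fun H => (∀ v, (H.neighborSet v).ncard ≤ Δ) ∧ CoarseDoubling k R H) G

end Pool.Agent.Lib.MP_09bd9b_co
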