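import Mathlib
import Pool.Agent.Lib.MP_09bd9b_co.Stm

/-!
# MP_09bd9b_co, piece DRC: dependent random choice
-/

set_option autoImplicit false

namespace Pool.Agent.Lib.MP_09bd9b_co

open Finset

/-- the number of tuples of neighbours -/
private lemma drc_pi {α : Type} [Fintype α] (t : ℕ) (P : α → Prop) [DecidablePred P]
    [DecidablePred fun b : Fin t → α => ∀ j, P (b j)] :
    (univ.filter fun b : Fin t → α => ∀ j, P (b j)).card = (univ.filter P).card ^ t := by
  classical
  have h : (univ.filter fun b : Fin t → α => ∀ j, P (b j)) =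
      Fintype.piFinset (fun _ : Fin t => univ.filter P) := by
    ext b
    simp [Fintype.mem_piFinset]
  rw [h, Fintype.card_piFinset]
  simp

private lemma drc_pm {X : Type} [Fintype X] (f : X → ℕ) (t : ℕ) :
    (∑ x, f x) ^ (t + 1) ≤ Fintype.card X ^ t * ∑ x, f x ^ (t + 1) := by
  have h := pow_sum_le_card_mul_sum_pow (s := (univ : Finset X)) (f := f)
    (fun i _ => Nat.zero_le (f i)) t
  simpa using h

theorem p_drc : S_drc := by
  classical
  intro k Δ M n X α _ _ R hX hM hn hq hE
  set q := Fintype.card α with hqdef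
  set a := k * Δ with ha
  have ht : 2 * k * Δ + 2 = (2 * a + 1) + 1 := by rw [ha]; ring
  rw [ht]
  set t := (2 * a + 1) + 1 with htdef
  have hqpos : 0 < q := by
    have : 0 < (2 * M ^ 2 + 1) * n ^ 2 := by positivity
    omega
  -- the sets
  let A : (Fin t → α) → Finset X := fun b => univ.filter fun x => ∀ j, R x (b j)
  let deg : X → ℕ := fun x => (univ.filter fun y => R x y).card
  have hW : ∑ b, (A b).card = ∑ x, deg x ^ t := by
    have h1 : ∑ b : Fin t → α, (A b).card =
        ∑ x : X, (univ.filter fun b : Fin t → α => ∀ j, R x (b j)).card := by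
      simp only [A, Finset.card_filter]
      rw [Finset.sum_comm]
    rw [h1]
    exact Finset.sum_congr rfl fun x _ => drc_pi t (fun y => R x y)
  have hEd : {p : X × α | R p.1 p.2}.ncard = ∑ x, deg x := by
    rw [Set.ncard_eq_toFinset_card']
    have : ({p : X × α | R p.1 p.2} : Set (X × α)).toFinset =
        univ.filter (fun p : X × α => R p.1 p.2) := by
      ext p; simp
    rw [this, Finset.card_filter, Fintype.sum_prod_type]
    exact Finset.sum_congr rfl fun x _ => by simp only [deg, Finset.card_filter]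
  rw [hEd] at hE
  -- (1)
  have h1 : q ^ (k + t) ≤ M ^ t * ∑ b, (A b).card := by
    have e1 : (q ^ (k + 1)) ^ t ≤ (M * ∑ x, deg x) ^ t := Nat.pow_le_pow_left hE t
    have e2 : (∑ x, deg x) ^ t ≤ Fintype.card X ^ (2 * a + 1) * ∑ x, deg x ^ t := drc_pm deg (2 * a + 1)
    rw [hX, ← hW] at e2
    have e3 : q ^ (k * (2 * a + 1)) * q ^ (k + t) ≤
        q ^ (k * (2 * a + 1)) * (M ^ t * ∑ b, (A b).card) := by
      calc q ^ (k * (2 * a + 1)) * q ^ (k + t) = (q ^ (k + 1)) ^ t := by
            rw [← pow_add, ← pow_mul, htdef]; congr 1; ring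
        _ ≤ (M * ∑ x, deg x) ^ t := e1
        _ = M ^ t * (∑ x, deg x) ^ t := mul_pow _ _ _
        _ ≤ M ^ t * ((q ^ k) ^ (2 * a + 1) * ∑ b, (A b).card) := Nat.mul_le_mul_left _ e2
        _ = q ^ (k * (2 * a + 1)) * (M ^ t * ∑ b, (A b).card) := by rw [← pow_mul]; ring
    exact Nat.le_of_mul_le_mul_left e3 (pow_pos hqpos _)
  -- bad tuples
  let bad : (Fin Δ → X) → Prop := fun τ => {b : α | ∀ j, R (τ j) b}.ncard < n
  by_contra hcon
  push Not at hcon
  have hb : ∀ b : Fin t → α, 2 * M ^ t * (A b).card ≤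
      q ^ k + 2 * M ^ t * q ^ k * (univ.filter fun τ : Fin Δ → X => bad τ ∧ ∀ j, τ j ∈ A b).card := by
    intro b
    by_cases hc : q ^ k ≤ 2 * M ^ t * (A b).card
    · have hc' : q ^ k ≤ 2 * M ^ t * (A b : Set X).ncard := by
        rw [Set.ncard_coe_finset]; exact hc
      obtain ⟨τ, hτ, hlt⟩ := hcon (A b : Set X) hc'
      have hpos : 1 ≤ (univ.filter fun τ : Fin Δ → X => bad τ ∧ ∀ j, τ j ∈ A b).card := by
        apply Finset.card_pos.mpr
        refine ⟨τ, ?_⟩
        rw [Finset.mem_filter]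
        exact ⟨Finset.mem_univ _, hlt, fun j => by simpa using hτ j⟩
      have hA : (A b).card ≤ q ^ k := by
        rw [← hX]; exact Finset.card_le_univ _
      calc 2 * M ^ t * (A b).card ≤ 2 * M ^ t * q ^ k := Nat.mul_le_mul_left _ hA
        _ = 2 * M ^ t * q ^ k * 1 := by ring
        _ ≤ 2 * M ^ t * q ^ k * (univ.filter fun τ : Fin Δ → X => bad τ ∧ ∀ j, τ j ∈ A b).card :=
            Nat.mul_le_mul_left _ hpos
        _ ≤ _ := Nat.le_add_left _ _
    · exact le_trans (le_of_lt (not_le.mp hc)) (Nat.le_add_right _ _)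
  have hB : ∑ b : Fin t → α, (univ.filter fun τ : Fin Δ → X => bad τ ∧ ∀ j, τ j ∈ A b).card ≤
      q ^ a * n ^ t := by
    have e1 : ∑ b : Fin t → α, (univ.filter fun τ : Fin Δ → X => bad τ ∧ ∀ j, τ j ∈ A b).card =
        ∑ τ : Fin Δ → X, (univ.filter fun b : Fin t → α => bad τ ∧ ∀ j, τ j ∈ A b).card := by
      simp only [Finset.card_filter]
      rw [Finset.sum_comm]
    rw [e1]
    have e2 : ∀ τ : Fin Δ → X,
        (univ.filter fun b : Fin t → α => bad τ ∧ ∀ j, τ j ∈ A b).card ≤ n ^ t := by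
      intro τ
      by_cases hbad : bad τ
      · have hs : (univ.filter fun b : Fin t → α => bad τ ∧ ∀ j, τ j ∈ A b) ⊆
            univ.filter fun b : Fin t → α => ∀ i, (∀ j, R (τ j) (b i)) := by
          intro b hb'
          rw [Finset.mem_filter] at hb' ⊢
          refine ⟨Finset.mem_univ _, fun i j => ?_⟩
          have := hb'.2.2 j
          simp only [A, Finset.mem_filter] at this
          exact this.2 i
        refine le_trans (Finset.card_le_card hs) ?_
        rw [drc_pi t (fun y => ∀ j, R (τ j) y)]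
        apply Nat.pow_le_pow_left
        have hlt : {b : α | ∀ j, R (τ j) b}.ncard < n := hbad
        rw [Set.ncard_eq_toFinset_card'] at hlt
        have : ({b : α | ∀ j, R (τ j) b} : Set α).toFinset =
            univ.filter (fun y => ∀ j, R (τ j) y) := by
          ext p; simp
        rw [this] at hlt
        exact hlt.le
      · have : (univ.filter fun b : Fin t → α => bad τ ∧ ∀ j, τ j ∈ A b) = ∅ := by
          apply Finset.filter_false_of_mem
          intro b _ h
          exact hbad h.1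
        rw [this]; simp
    calc ∑ τ, (univ.filter fun b : Fin t → α => bad τ ∧ ∀ j, τ j ∈ A b).card
        ≤ ∑ _τ : Fin Δ → X, n ^ t := Finset.sum_le_sum fun τ _ => e2 τ
      _ = q ^ a * n ^ t := by
          rw [Finset.sum_const, smul_eq_mul, Finset.card_univ, Fintype.card_fun, hX,
            Fintype.card_fin, ← pow_mul, ha]
  have h2 : 2 * M ^ t * ∑ b, (A b).card ≤ q ^ t * q ^ k + 2 * M ^ t * q ^ k * (q ^ a * n ^ t) := by
    calc 2 * M ^ t * ∑ b, (A b).card = ∑ b, 2 * M ^ t * (A b).card := by rw [Finset.mul_sum]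
      _ ≤ ∑ b : Fin t → α, (q ^ k + 2 * M ^ t * q ^ k *
            (univ.filter fun τ : Fin Δ → X => bad τ ∧ ∀ j, τ j ∈ A b).card) :=
          Finset.sum_le_sum fun b _ => hb b
      _ = q ^ t * q ^ k + 2 * M ^ t * q ^ k *
            ∑ b : Fin t → α, (univ.filter fun τ : Fin Δ → X => bad τ ∧ ∀ j, τ j ∈ A b).card := by
          rw [Finset.sum_add_distrib, ← Finset.mul_sum, Finset.sum_const, smul_eq_mul,
            Finset.card_univ, Fintype.card_fun, Fintype.card_fin]
      _ ≤ _ := Nat.add_le_add_left (Nat.mul_le_mul_left _ hB) _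
  have h3 : q ^ (k + t) ≤ 2 * M ^ t * q ^ k * (q ^ a * n ^ t) := by
    have e : 2 * q ^ (k + t) ≤ q ^ t * q ^ k + 2 * M ^ t * q ^ k * (q ^ a * n ^ t) := by
      refine le_trans ?_ h2
      calc 2 * q ^ (k + t) ≤ 2 * (M ^ t * ∑ b, (A b).card) := Nat.mul_le_mul_left _ h1
        _ = _ := by ring
    have e' : q ^ t * q ^ k = q ^ (k + t) := by rw [← pow_add]; congr 1; ring
    rw [e'] at e
    omega
  have h4 : q ^ (a + 2) ≤ 2 * ((M * n) ^ 2) ^ (a + 1) := by
    have e : q ^ (k + a) * q ^ (a + 2) ≤ q ^ (k + a) * (2 * ((M * n) ^ 2) ^ (a + 1)) := by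
      calc q ^ (k + a) * q ^ (a + 2) = q ^ (k + t) := by
            rw [← pow_add, htdef]; congr 1; ring
        _ ≤ 2 * M ^ t * q ^ k * (q ^ a * n ^ t) := h3
        _ = q ^ (k + a) * (2 * ((M * n) ^ 2) ^ (a + 1)) := by
            have : ((M * n) ^ 2) ^ (a + 1) = M ^ t * n ^ t := by
              rw [← pow_mul, mul_pow, htdef]
              congr 2
            rw [this, pow_add]; ring
    exact Nat.le_of_mul_le_mul_left e (pow_pos hqpos _)
  have hMn : 0 < (M * n) ^ 2 := by positivity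
  have hq2 : 2 * (M * n) ^ 2 < q := by
    calc 2 * (M * n) ^ 2 < (2 * M ^ 2 + 1) * n ^ 2 := by
          have : 0 < n ^ 2 := by positivity
          nlinarith
      _ ≤ q := hq
  have h5 : (2 * (M * n) ^ 2) ^ (a + 1) ≤ q ^ (a + 1) := Nat.pow_le_pow_left hq2.le _
  have h6 : 2 * ((M * n) ^ 2) ^ (a + 1) ≤ (2 * (M * n) ^ 2) ^ (a + 1) := by
    rw [mul_pow 2 ((M * n) ^ 2) (a + 1)]
    apply Nat.mul_le_mul_right
    calc 2 = 2 ^ 1 := by norm_num
      _ ≤ 2 ^ (a + 1) := Nat.pow_le_pow_right (by norm_num) (by omega)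
  have h7 : q ^ (a + 1) < q ^ (a + 2) := Nat.pow_lt_pow_right (by omega) (by omega)
  omega

end Pool.Agent.Lib.MP_09bd9b_co
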