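import Pool.Agent.Lib.MP_09bd9b_co.Stm

set_option autoImplicit false

namespace Pool.Agent.Lib.MP_09bd9b_co

open Matrix

/-- piece EVI -/
theorem p_evi : S_evi := by
  intro q F _ v hv
  have h1 : (fun (r : Fin q → F) (a : Fin q) => evp r (v a)) =
      fun r => (vandermonde v).mulVec r := by
    funext r a
    simp only [evp, mulVec, dotProduct, vandermonde_apply]
    refine Finset.sum_congr rfl fun j _ => ?_
    ring
  have h2 : IsUnit (vandermonde v) := by
    rw [Matrix.isUnit_iff_isUnit_det, isUnit_iff_ne_zero]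
    exact det_vandermonde_ne_zero_iff.2 hv
  rw [h1]
  refine ⟨Matrix.mulVec_injective_iff_isUnit.2 h2, fun y => ?_⟩
  exact Matrix.mulVec_surjective_iff_isUnit.2 h2 y

end Pool.Agent.Lib.MP_09bd9b_co
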