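import Pool.Agent.Lib.MP_09bd9b_co.Stm

set_option autoImplicit false

namespace Pool.Agent.Lib.MP_09bd9b_co

theorem p_fin (hord : S_ord) (hgra : S_gra) : S_fin := by
  intro q u U hq
  obtain ⟨t, K, hg⟩ := hgra q u hq
  obtain ⟨B, iB, GB, hB⟩ := hord u U (Pos q t K → Pos q t K → Bool)
  refine ⟨t, K, B, iB, GB, ?_⟩
  intro Φ
  obtain ⟨φ, c, hc⟩ := hB Φ
  obtain ⟨κ₀, h⟩ := hg c
  exact ⟨φ, κ₀, c, hc, h⟩

end Pool.Agent.Lib.MP_09bd9b_co
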