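import Pool.Agent.Lib.MP_09bd9b_co.Stm

set_option autoImplicit false

/-!
# MP_09bd9b_co, project CD: piece GRA (canonical patterns)
-/

namespace Pool.Agent.Lib.MP_09bd9b_co

open Finset

/-- the increasing sequence with the two elements `j R + lo j < j R + hi j` in the block `j` -/
private def graS (R : ℕ) (lo hi : ℕ → ℕ) (j : ℕ) : ℕ :=
  (j / 2) * R + if j % 2 = 0 then lo (j / 2) else hi (j / 2)

private theorem graS_mono {R : ℕ} {lo hi : ℕ → ℕ} (h : ∀ a, lo a < hi a ∧ hi a < R) :
    StrictMono (graS R lo hi) := by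
  refine strictMono_nat_of_lt_succ fun j => ?_
  unfold graS
  rcases Nat.even_or_odd' j with ⟨a, rfl | rfl⟩
  · have e1 : 2 * a / 2 = a := by omega
    have e2 : (2 * a + 1) / 2 = a := by omega
    rw [if_pos (by omega), if_neg (by omega), e1, e2]
    have := (h a).1
    omega
  · have e1 : (2 * a + 1) / 2 = a := by omega
    have e2 : (2 * a + 1 + 1) / 2 = a + 1 := by omega
    rw [if_neg (by omega), if_pos (by omega), e1, e2, Nat.add_mul, one_mul]
    have := (h a).2
    omega

private theorem graS_lt {R q : ℕ} {lo hi : ℕ → ℕ} (h : ∀ a, lo a < hi a ∧ hi a < R) {j : ℕ}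
    (hj : j < 2 * (q + 1)) : graS R lo hi j < (q + 1) * R := by
  have h1 : graS R lo hi j < (j / 2 + 1) * R := by
    unfold graS
    rw [Nat.add_mul, one_mul]
    have h2 := h (j / 2)
    split_ifs <;> omega
  refine lt_of_lt_of_le h1 (Nat.mul_le_mul_right R ?_)
  omega

/-- the pattern of two numbers -/
private def graP (x y : ℕ) : Fin 3 := if x = y then 0 else if x < y then 1 else 2

theorem p_gra (hram : S_ram) : S_gra := by
  intro q u hq
  set R := max q u + 1 with hR
  have hqR : q ≤ R - 1 := by omega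
  have huR : u ≤ R - 1 := by omega
  have hR2 : 2 ≤ R := by omega
  obtain ⟨N, hN⟩ := hram (((Fin q → Fin 3) → Bool) × Bool) (2 * (q + 1)) ((q + 1) * R)
  refine ⟨N, N, fun g => ?_⟩
  -- the colouring
  let f : (Fin (2 * (q + 1)) → Fin N) → ((Fin q → Fin 3) → Bool) × Bool := fun s =>
    (fun π => g
      (s ⟨0, by omega⟩, fun a => if π a = 2 then s ⟨2 * a + 3, by omega⟩ else s ⟨2 * a + 2, by omega⟩)
      (s ⟨1, by omega⟩, fun a => if π a = 1 then s ⟨2 * a + 3, by omega⟩ else s ⟨2 * a + 2, by omega⟩),
    g (s ⟨0, by omega⟩, fun a => s ⟨2 * a + 2, by omega⟩)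
      (s ⟨0, by omega⟩, fun a => s ⟨2 * a + 2, by omega⟩))
  obtain ⟨T, hT, ⟨γ, φ⟩, hc⟩ := hN f
  have hr0 : 0 < (q + 1) * R := Nat.mul_pos (by omega) (by omega)
  let T' : ℕ → Fin N := fun n => if h : n < (q + 1) * R then T ⟨n, h⟩ else T ⟨0, hr0⟩
  have hT' : ∀ n m, n < m → m < (q + 1) * R → T' n < T' m := by
    intro n m hnm hm
    simp only [T']
    rw [dif_pos (hnm.trans hm), dif_pos hm]
    exact hT hnm
  have hT'e : ∀ (n : ℕ) (h : n < (q + 1) * R), T ⟨n, h⟩ = T' n := by
    intro n h
    simp only [T']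
    rw [dif_pos h]
  -- the homogeneous colours
  have key : ∀ lo hi : ℕ → ℕ, (∀ a, lo a < hi a ∧ hi a < R) →
      (∀ π : Fin q → Fin 3, g
        (T' (lo 0), fun a => T' (((a : ℕ) + 1) * R + if π a = 2 then hi (a + 1) else lo (a + 1)))
        (T' (hi 0), fun a => T' (((a : ℕ) + 1) * R + if π a = 1 then hi (a + 1) else lo (a + 1))) =
          γ π) ∧
      g (T' (lo 0), fun a : Fin q => T' (((a : ℕ) + 1) * R + lo (a + 1)))
        (T' (lo 0), fun a : Fin q => T' (((a : ℕ) + 1) * R + lo (a + 1))) = φ := by
    intro lo hi h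
    have h1 := hc (fun j => ⟨graS R lo hi j, graS_lt h j.2⟩) (fun i j hij => graS_mono h hij)
    simp only [f, hT'e] at h1
    rw [Prod.mk.injEq] at h1
    obtain ⟨h1, h2⟩ := h1
    have e0 : graS R lo hi 0 = lo 0 := by simp [graS]
    have e1 : graS R lo hi 1 = hi 0 := by simp [graS]
    have e2 : ∀ a : ℕ, graS R lo hi (2 * a + 2) = (a + 1) * R + lo (a + 1) := by
      intro a
      unfold graS
      have : (2 * a + 2) / 2 = a + 1 := by omega
      rw [if_pos (by omega), this]
    have e3 : ∀ a : ℕ, graS R lo hi (2 * a + 3) = (a + 1) * R + hi (a + 1) := by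
      intro a
      unfold graS
      have : (2 * a + 3) / 2 = a + 1 := by omega
      rw [if_neg (by omega), this]
    simp only [e0, e1, e2, e3] at h1 h2
    refine ⟨fun π => ?_, h2⟩
    have h3 := congrFun h1 π
    rw [← h3]
    congr 2
    · funext a
      split_ifs <;> rfl
    · funext a
      split_ifs <;> rfl
  have key1 : ∀ (x x' : ℕ) (k k' : Fin q → ℕ), x < x' → x' < R → (∀ a, k a < R - 1) →
      (∀ a, k' a < R - 1) →
      g (T' x, fun a => T' (((a : ℕ) + 1) * R + k a)) (T' x', fun a => T' (((a : ℕ) + 1) * R + k' a)) =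
        γ fun a => graP (k a) (k' a) := by
    intro x x' k k' hx hx' hk hk'
    let lo : ℕ → ℕ := fun j => if j = 0 then x else
      if h : j - 1 < q then min (k ⟨j - 1, h⟩) (k' ⟨j - 1, h⟩) else 0
    let hi : ℕ → ℕ := fun j => if j = 0 then x' else
      if h : j - 1 < q then
        (if k ⟨j - 1, h⟩ = k' ⟨j - 1, h⟩ then k ⟨j - 1, h⟩ + 1
          else max (k ⟨j - 1, h⟩) (k' ⟨j - 1, h⟩)) else 1
    have hlh : ∀ a, lo a < hi a ∧ hi a < R := by
      intro a
      simp only [lo, hi]
      by_cases ha : a = 0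
      · rw [if_pos ha, if_pos ha]
        exact ⟨hx, hx'⟩
      · rw [if_neg ha, if_neg ha]
        by_cases h : a - 1 < q
        · rw [dif_pos h, dif_pos h]
          have h1 := hk ⟨a - 1, h⟩
          have h2 := hk' ⟨a - 1, h⟩
          split_ifs <;> omega
        · rw [dif_neg h, dif_neg h]
          omega
    have h := (key lo hi hlh).1 fun a => graP (k a) (k' a)
    have elo : ∀ a : Fin q, lo ((a : ℕ) + 1) = min (k a) (k' a) := by
      intro a
      simp only [lo]
      rw [if_neg (by omega), dif_pos (by omega : (a : ℕ) + 1 - 1 < q)]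
      rfl
    have ehi : ∀ a : Fin q, hi ((a : ℕ) + 1) = if k a = k' a then k a + 1 else max (k a) (k' a) := by
      intro a
      simp only [hi]
      rw [if_neg (by omega), dif_pos (by omega : (a : ℕ) + 1 - 1 < q)]
      rfl
    have e1 : ∀ a : Fin q, (if graP (k a) (k' a) = 2 then hi ((a : ℕ) + 1) else lo ((a : ℕ) + 1)) =
        k a := by
      intro a
      rw [elo, ehi]
      unfold graP
      by_cases h1 : k a = k' a
      · rw [if_pos h1, if_pos h1, if_neg (by decide)]
        omega
      · rw [if_neg h1, if_neg h1]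
        by_cases h2 : k a < k' a
        · rw [if_pos h2, if_neg (by decide)]
          omega
        · rw [if_neg h2, if_pos rfl]
          omega
    have e2 : ∀ a : Fin q, (if graP (k a) (k' a) = 1 then hi ((a : ℕ) + 1) else lo ((a : ℕ) + 1)) =
        k' a := by
      intro a
      rw [elo, ehi]
      unfold graP
      by_cases h1 : k a = k' a
      · rw [if_pos h1, if_pos h1, if_neg (by decide)]
        omega
      · rw [if_neg h1, if_neg h1]
        by_cases h2 : k a < k' a
        · rw [if_pos h2, if_pos rfl]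
          omega
        · rw [if_neg h2, if_neg (by decide)]
          omega
    simp only [e1, e2] at h
    exact h
  have key2 : ∀ (x : ℕ) (k : Fin q → ℕ), x < R - 1 → (∀ a, k a < R - 1) →
      g (T' x, fun a => T' (((a : ℕ) + 1) * R + k a)) (T' x, fun a => T' (((a : ℕ) + 1) * R + k a)) =
        φ := by
    intro x k hx hk
    let lo : ℕ → ℕ := fun j => if j = 0 then x else if h : j - 1 < q then k ⟨j - 1, h⟩ else 0
    have hlh : ∀ a, lo a < lo a + 1 ∧ lo a + 1 < R := by
      intro a
      simp only [lo]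
      by_cases ha : a = 0
      · rw [if_pos ha]
        omega
      · rw [if_neg ha]
        by_cases h : a - 1 < q
        · rw [dif_pos h]
          have h1 := hk ⟨a - 1, h⟩
          omega
        · rw [dif_neg h]
          omega
    have h := (key lo (fun a => lo a + 1) hlh).2
    have elo : ∀ a : Fin q, lo ((a : ℕ) + 1) = k a := by
      intro a
      simp only [lo]
      rw [if_neg (by omega), dif_pos (by omega : (a : ℕ) + 1 - 1 < q)]
      rfl
    simp only [elo] at h
    exact h
  have hRr : R ≤ (q + 1) * R := Nat.le_mul_of_pos_left R (by omega)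
  have hblk : ∀ (a : Fin q) (d : ℕ), d < R → ((a : ℕ) + 1) * R + d < (q + 1) * R := by
    intro a d hd
    have h1 : ((a : ℕ) + 1 + 1) * R ≤ (q + 1) * R := Nat.mul_le_mul_right R (by omega)
    rw [Nat.add_mul (_ + 1) 1, one_mul] at h1
    omega
  by_cases hcase : ∃ π : Fin q → Fin 3, (∃ a₀, π a₀ = 0) ∧ γ π = φ
  · obtain ⟨π, ⟨a₀, ha₀⟩, hπ⟩ := hcase
    let d : ℕ → Fin q → ℕ := fun κ a => if π a = 0 then 0 else if π a = 1 then κ else q - 1 - κ
    have hd : ∀ κ, κ < q → ∀ a, d κ a < R - 1 := by
      intro κ hκ a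
      simp only [d]
      split_ifs <;> omega
    refine ⟨φ, Or.inl ⟨fun κ => T' κ, fun κ a => T' (((a : ℕ) + 1) * R + d κ a), ?_, ?_, ?_⟩⟩
    · intro κ κ' h
      exact hT' _ _ h (by omega)
    · intro κ κ'
      refine ⟨a₀, ?_⟩
      simp only [d]
      rw [if_pos ha₀, if_pos ha₀]
    · intro κ κ' h
      rcases h.eq_or_lt with h | h
      · rw [h]
        exact key2 _ _ (by omega) (hd _ κ'.2)
      · rw [key1 (κ : ℕ) κ' (d κ) (d κ') h (by omega) (hd _ κ.2) (hd _ κ'.2), ← hπ]
        congr 1
        funext a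
        have h' : (κ : ℕ) < κ' := h
        change graP (d κ a) (d κ' a) = π a
        by_cases h0 : π a = 0
        · have e : ∀ κ, d κ a = 0 := fun κ => if_pos h0
          rw [e, e, h0]
          rfl
        · by_cases h1 : π a = 1
          · have e : ∀ κ, d κ a = κ := fun κ => by
              simp only [d]
              rw [if_neg h0, if_pos h1]
            rw [e, e, h1]
            unfold graP
            rw [if_neg (by omega), if_pos (by omega)]
          · have e : ∀ κ, d κ a = q - 1 - κ := fun κ => by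
              simp only [d]
              rw [if_neg h0, if_neg h1]
            rw [e, e]
            unfold graP
            rw [if_neg (by omega), if_neg (by omega)]
            revert h0 h1
            generalize π a = z
            revert z
            decide
  · push Not at hcase
    refine ⟨!φ, Or.inr ⟨fun θ => T' θ, fun a m => T' (((a : ℕ) + 1) * R + m), ?_, ?_, ?_⟩⟩
    · intro κ κ' h
      exact hT' _ _ h (by omega)
    · intro a m m' h
      refine hT' _ _ ?_ (hblk a m' (by omega))
      have h' : (m : ℕ) < m' := h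
      omega
    · intro a b hab m m' ⟨x, hx⟩
      rw [key1 (a : ℕ) b (fun y => (m y : ℕ)) (fun y => (m' y : ℕ)) hab (by omega)
        (fun y => by omega) (fun y => by omega)]
      have h1 := hcase (fun y => graP (m y) (m' y)) ⟨x, by simp [graP, hx]⟩
      revert h1
      generalize γ (fun y => graP (m y) (m' y)) = z
      revert z
      revert φ
      intro φ _ _ _ _ z
      cases z <;> cases φ <;> simp

end Pool.Agent.Lib.MP_09bd9b_co
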