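import Pool.Agent.Lib.MP_09bd9b_co.Stm

set_option autoImplicit false

/-! # Piece ORD: the ordered induced Ramsey theorem -/

namespace Pool.Agent.Lib.MP_09bd9b_co

open Finset

namespace OrdPf

/-- the vertices of the local structure -/
private def bv {a q : ℕ} (ω : Fin a × Fin a → Fin q) (j : Fin a) : Fin a × (Fin a → Fin q) :=
  (j, fun j' => ω (min j j', max j j'))

/-- the host graph -/
private def gb (a q : ℕ) : SimpleGraph (Fin a × (Fin a → Fin q)) where
  Adj x y := x.1 ≠ y.1 ∧ x.2 y.1 = y.2 x.1
  symm := ⟨fun _ _ h => ⟨h.1.symm, h.2.symm⟩⟩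
  loopless := ⟨fun _ h => h.1 rfl⟩

/-- pigeonhole: one of the sets covers at least one `card P`-th of all elements -/
private theorem pigeon {Ω P : Type} [Fintype Ω] [Fintype P] [Nonempty Ω] (good : P → Set Ω)
    (h : ∀ ω, ∃ p, ω ∈ good p) : ∃ p, Fintype.card Ω ≤ Fintype.card P * (good p).ncard := by
  classical
  by_contra hcon
  push Not at hcon
  have h1 : (Finset.univ : Finset Ω) ⊆
      (Finset.univ : Finset P).biUnion fun p => Finset.univ.filter (fun ω => ω ∈ good p) := by
    intro ω _
    obtain ⟨p, hp⟩ := h ω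
    rw [mem_biUnion]
    exact ⟨p, mem_univ _, mem_filter.2 ⟨mem_univ _, hp⟩⟩
  have h2 : ∀ p, (Finset.univ.filter (fun ω => ω ∈ good p)).card = (good p).ncard := by
    intro p
    rw [← Set.ncard_coe_finset]
    congr 1
    ext ω
    simp
  obtain ⟨ω0⟩ := ‹Nonempty Ω›
  obtain ⟨p0, -⟩ := h ω0
  have hP : Nonempty P := ⟨p0⟩
  have h3 : ∀ p, Fintype.card P * (good p).ncard + 1 ≤ Fintype.card Ω := fun p => hcon p
  have h4 : Fintype.card Ω ≤ ∑ p, (good p).ncard := by
    calc Fintype.card Ω = (Finset.univ : Finset Ω).card := rfl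
      _ ≤ _ := card_le_card h1
      _ ≤ ∑ p, (Finset.univ.filter (fun ω => ω ∈ good p)).card := card_biUnion_le
      _ = ∑ p, (good p).ncard := Finset.sum_congr rfl fun p _ => h2 p
  have h5 : ∑ p : P, (Fintype.card P * (good p).ncard + 1) ≤ ∑ _p : P, Fintype.card Ω :=
    Finset.sum_le_sum fun p _ => h3 p
  rw [Finset.sum_add_distrib, ← Finset.mul_sum, Finset.sum_const, Finset.sum_const, card_univ,
    smul_eq_mul, smul_eq_mul, mul_one] at h5
  have h6 : Fintype.card P * Fintype.card Ω ≤ Fintype.card P * ∑ p, (good p).ncard :=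
    Nat.mul_le_mul_left _ h4
  have h7 : 0 < Fintype.card P := Fintype.card_pos
  omega

variable {u a : ℕ}

/-- names -/
private abbrev Nm (u : ℕ) : Type := Fin u ⊕ Unit ⊕ (Fin u × Fin u)

private noncomputable def nm (U : SimpleGraph (Fin u)) (z : Fin u → Fin a) (i : Fin u)
    (j' : Fin a) : Nm u :=
  open Classical in if ∃ j, j' = z j ∧ U.Adj i j then Sum.inr (Sum.inl ()) else Sum.inl i

private noncomputable def ed (U : SimpleGraph (Fin u)) (z : Fin u → Fin a) (i j : Fin u)
    (p : Fin a × Fin a) : Nm u :=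
  if p.1 = z i then nm U z i p.2 else
  if p.2 = z i then nm U z i p.1 else
  if p.1 = z j then nm U z j p.2 else
  if p.2 = z j then nm U z j p.1 else Sum.inr (Sum.inr (i, j))

private theorem nm_adj {U : SimpleGraph (Fin u)} {z : Fin u → Fin a} {i j : Fin u}
    (h : U.Adj i j) : nm U z i (z j) = Sum.inr (Sum.inl ()) := by
  classical
  rw [nm, if_pos ⟨j, rfl, h⟩]

private theorem nm_not {U : SimpleGraph (Fin u)} {z : Fin u → Fin a} (hz : Function.Injective z)
    {i j : Fin u} (h : ¬ U.Adj i j) : nm U z i (z j) = Sum.inl i := by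
  classical
  rw [nm, if_neg]
  rintro ⟨j', hj, hadj⟩
  exact h (hz hj ▸ hadj)

private theorem ed_left {U : SimpleGraph (Fin u)} {z : Fin u → Fin a} (i j : Fin u)
    (j' : Fin a) : ed U z i j (min (z i) j', max (z i) j') = nm U z i j' := by
  rcases le_total (z i) j' with h | h
  · rw [min_eq_left h, max_eq_right h, ed, if_pos rfl]
  · rw [min_eq_right h, max_eq_left h, ed]
    show (if j' = z i then nm U z i (z i) else if z i = z i then nm U z i j' else _) = _
    by_cases hj : j' = z i
    · rw [if_pos hj, hj]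
    · rw [if_neg hj, if_pos rfl]

private theorem ed_right {U : SimpleGraph (Fin u)} {z : Fin u → Fin a}
    (hz : Function.Injective z) {i j : Fin u} (hadj : U.Adj i j) (j' : Fin a) :
    ed U z i j (min (z j) j', max (z j) j') = nm U z j j' := by
  have hne : z j ≠ z i := fun h => hadj.ne (hz h).symm
  by_cases hj : j' = z i
  · subst hj
    rw [nm_adj hadj.symm]
    rcases le_total (z j) (z i) with h | h
    · rw [min_eq_left h, max_eq_right h, ed]
      show (if z j = z i then _ else if z i = z i then nm U z i (z j) else _) = _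
      rw [if_neg hne, if_pos rfl, nm_adj hadj]
    · rw [min_eq_right h, max_eq_left h, ed]
      show (if z i = z i then nm U z i (z j) else _) = _
      rw [if_pos rfl, nm_adj hadj]
  · rcases le_total (z j) j' with h | h
    · rw [min_eq_left h, max_eq_right h, ed]
      show (if z j = z i then _ else if j' = z i then _ else if z j = z j then nm U z j j'
        else _) = _
      rw [if_neg hne, if_neg hj, if_pos rfl]
    · rw [min_eq_right h, max_eq_left h, ed]
      show (if j' = z i then _ else if z j = z i then _ else if j' = z j then nm U z j (z j)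
        else if z j = z j then nm U z j j' else _) = _
      rw [if_neg hj, if_neg hne]
      by_cases hj2 : j' = z j
      · rw [if_pos hj2, hj2]
      · rw [if_neg hj2, if_pos rfl]

end OrdPf

open OrdPf in
/-- piece ORD -/
theorem p_ord (hram : S_ram) (hdl : S_dl) : S_ord := by
  classical
  intro u U C _ _
  have := Fintype.ofFinite C
  obtain ⟨a, ha⟩ := hram C 2 u
  obtain ⟨c0, hc0⟩ := hdl (a * a) (u * u) (Fintype.card ((Fin u → Fin a) × C))
  set n : ℕ := Fintype.card (Nm u) with hn
  set q : ℕ := c0 * n ^ 2 + 1 with hq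
  refine ⟨Fin a × (Fin a → Fin q), inferInstance, gb a q, ?_⟩
  intro χ
  have hne : Nonempty (Fin a × Fin a → Fin q) := ⟨fun _ => ⟨0, by omega⟩⟩
  let good : (Fin u → Fin a) × C → Set (Fin a × Fin a → Fin q) := fun p =>
    {ω | StrictMono p.1 ∧ ∀ i j, i < j → χ (bv ω (p.1 i)) (bv ω (p.1 j)) = p.2}
  obtain ⟨⟨z, c⟩, hzc⟩ := pigeon good (by
    intro ω
    obtain ⟨T, hT, c, hc⟩ := ha fun s => χ (bv ω (s 0)) (bv ω (s 1))
    refine ⟨(T, c), hT, fun i j hij => ?_⟩
    have hs : StrictMono ![i, j] := by
      intro x y hxy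
      fin_cases x <;> fin_cases y <;> first | exact absurd hxy (by decide) | exact hij
    exact hc ![i, j] hs)
  have hpos : 0 < (good (z, c)).ncard := by
    rcases Nat.eq_zero_or_pos (good (z, c)).ncard with h | h
    · rw [h, mul_zero] at hzc
      have : 0 < Fintype.card (Fin a × Fin a → Fin q) := Fintype.card_pos
      omega
    · exact h
  obtain ⟨ω0, hω0⟩ := Set.nonempty_of_ncard_ne_zero hpos.ne'
  have hz : StrictMono z := hω0.1
  have hzi := hz.injective
  obtain ⟨Y, hYi, hY⟩ := hc0 (Fin a × Fin a) (Fin q) (Nm u) {p : Fin u × Fin u // U.Adj p.1 p.2} n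
    (by simp) le_rfl (by rw [Fintype.card_fin]; omega) (good (z, c))
    (by
      refine le_trans (le_of_eq ?_) hzc
      rw [Fintype.card_fun, Fintype.card_prod, Fintype.card_fin, Fintype.card_fin])
    (fun x p => ed U z x.1.1 x.1.2 p)
    (by
      intro i ν
      refine (Set.ncard_le_card _).trans ?_
      rw [Nat.card_eq_fintype_card]
      refine (Fintype.card_subtype_le _).trans ?_
      rw [Fintype.card_prod, Fintype.card_fin])
  have hY' : ∀ i j (h : U.Adj i j), (fun p => Y p (ed U z i j p)) ∈ good (z, c) :=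
    fun i j h => hY ⟨(i, j), h⟩
  let φ : Fin u → Fin a × (Fin a → Fin q) := fun i =>
    (z i, fun j' => Y (min (z i) j', max (z i) j') (nm U z i j'))
  have hφadj : ∀ i j, (gb a q).Adj (φ i) (φ j) ↔ U.Adj i j := by
    intro i j
    constructor
    · rintro ⟨h1, h2⟩
      by_contra hno
      have hno' : ¬ U.Adj j i := fun h => hno h.symm
      have h3 : Y (min (z i) (z j), max (z i) (z j)) (nm U z i (z j)) =
        Y (min (z j) (z i), max (z j) (z i)) (nm U z j (z i)) := h2
      rw [min_comm (z j), max_comm (z j)] at h3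
      have h4 := hYi _ h3
      rw [nm_not hzi hno, nm_not hzi hno'] at h4
      have h5 : i = j := Sum.inl_injective h4
      exact h1 (by rw [h5])
    · intro h
      refine ⟨fun h1 => h.ne (hzi h1), ?_⟩
      show Y (min (z i) (z j), max (z i) (z j)) (nm U z i (z j)) =
        Y (min (z j) (z i), max (z j) (z i)) (nm U z j (z i))
      rw [min_comm (z j), max_comm (z j), nm_adj h, nm_adj h.symm]
  refine ⟨⟨⟨φ, fun i j h => hzi (congrArg Prod.fst h)⟩, fun {i j} => hφadj i j⟩, c, ?_⟩
  intro i j hij hadj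
  have h1 := (hY' i j hadj).2 i j hij
  have h2 : bv (fun p => Y p (ed U z i j p)) (z i) = φ i := by
    show (z i, _) = (z i, _)
    congr 1
    funext j'
    show Y _ (ed U z i j (min (z i) j', max (z i) j')) = _
    rw [ed_left]
  have h3 : bv (fun p => Y p (ed U z i j p)) (z j) = φ j := by
    show (z j, _) = (z j, _)
    congr 1
    funext j'
    show Y _ (ed U z i j (min (z j) j', max (z j) j')) = _
    rw [ed_right hzi hadj]
  have h4 : χ (bv (fun p => Y p (ed U z i j p)) (z i)) (bv (fun p => Y p (ed U z i j p)) (z j)) =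
    c := h1
  rw [h2, h3] at h4
  exact h4

end Pool.Agent.Lib.MP_09bd9b_co
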