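import Pool.Agent.Lib.MP_09bd9b_co.Stm

/-!
# MP_09bd9b_co, piece PIG: the pigeonhole principle
-/

set_option autoImplicit false

namespace Pool.Agent.Lib.MP_09bd9b_co

open Finset

private lemma pig_row {X Y : Type} [Fintype X] [Fintype Y] [Nonempty Y] (s : ℕ)
    (p : Y → X → Prop)
    (h : Fintype.card Y * Fintype.card X ≤ s * {a : Y × X | p a.1 a.2}.ncard) :
    ∃ w : Y, Fintype.card X ≤ s * {x : X | p w x}.ncard := by
  classical
  by_contra hcon
  push Not at hcon
  have h1 : {a : Y × X | p a.1 a.2}.ncard = ∑ w : Y, {x : X | p w x}.ncard := by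
    have e1 : ∀ w : Y, {x : X | p w x}.ncard = (univ.filter fun x : X => p w x).card := by
      intro w
      rw [Set.ncard_eq_toFinset_card', Set.toFinset_setOf]
    have e2 : {a : Y × X | p a.1 a.2}.ncard = (univ.filter fun a : Y × X => p a.1 a.2).card := by
      rw [Set.ncard_eq_toFinset_card', Set.toFinset_setOf]
    rw [e2, sum_congr rfl fun w _ => e1 w]
    simp only [card_filter]
    rw [Fintype.sum_prod_type]
  rw [h1, mul_sum] at h
  have h2 : ∑ w : Y, s * {x : X | p w x}.ncard < ∑ _w : Y, Fintype.card X :=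
    sum_lt_sum_of_nonempty univ_nonempty fun w _ => hcon w
  rw [sum_const, card_univ, smul_eq_mul] at h2
  omega

theorem p_pig : S_pig := by
  classical
  intro X Y P Q _ _ _ _ _ _ δ
  have hc : Fintype.card (Y × X) = ∑ v : P ⊕ Q, {a : Y × X | δ a.1 a.2 = v}.ncard := by
    have e : ∀ v : P ⊕ Q, {a : Y × X | δ a.1 a.2 = v}.ncard =
        (univ.filter fun a : Y × X => δ a.1 a.2 = v).card := by
      intro v
      rw [Set.ncard_eq_toFinset_card', Set.toFinset_setOf]
    rw [sum_congr rfl fun v _ => e v, ← card_univ]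
    exact card_eq_sum_card_fiberwise fun a _ => mem_coe.2 (mem_univ _)
  have hv : ∃ v : P ⊕ Q, Fintype.card (Y × X) ≤
      (Fintype.card P + Fintype.card Q) * {a : Y × X | δ a.1 a.2 = v}.ncard := by
    by_contra hcon
    push Not at hcon
    have hne : (univ : Finset (P ⊕ Q)).Nonempty :=
      ⟨δ (Classical.arbitrary Y) (Classical.arbitrary X), mem_univ _⟩
    have h1 : ∑ v : P ⊕ Q, (Fintype.card P + Fintype.card Q) *
        {a : Y × X | δ a.1 a.2 = v}.ncard < ∑ _v : P ⊕ Q, Fintype.card (Y × X) :=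
      sum_lt_sum_of_nonempty hne fun v _ => hcon v
    rw [← mul_sum, ← hc, sum_const, card_univ, Fintype.card_sum, smul_eq_mul] at h1
    exact lt_irrefl _ h1
  obtain ⟨v, hv⟩ := hv
  rw [Fintype.card_prod] at hv
  cases v with
  | inl d =>
    left
    obtain ⟨w, hw⟩ := pig_row _ (fun w x => δ w x = Sum.inl d) hv
    exact ⟨d, w, hw⟩
  | inr d =>
    right
    have h1 : {a : Y × X | δ a.1 a.2 = Sum.inr d}.ncard =
        {a : X × Y | δ a.2 a.1 = Sum.inr d}.ncard := by
      have : {a : X × Y | δ a.2 a.1 = Sum.inr d} =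
          Prod.swap '' {a : Y × X | δ a.1 a.2 = Sum.inr d} := by
        ext ⟨x, w⟩
        constructor
        · intro h
          exact ⟨(w, x), h, rfl⟩
        · rintro ⟨⟨w', x'⟩, h, h'⟩
          cases h'
          exact h
      rw [this, Set.ncard_image_of_injective _ Prod.swap_injective]
    rw [h1, mul_comm (Fintype.card Y)] at hv
    obtain ⟨x, hx⟩ := pig_row _ (fun x w => δ w x = Sum.inr d) hv
    exact ⟨d, x, hx⟩

end Pool.Agent.Lib.MP_09bd9b_co
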