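import Pool.Agent.Lib.MP_09bd9b_co.Stm
import Pool.Agent.Lib.MP_2e96e9_co.Ramsey

set_option autoImplicit false

/-!
# MP_09bd9b_co, project CD, piece RAM: Ramsey's theorem for increasing tuples
-/

namespace Pool.Agent.Lib.MP_09bd9b_co

open Finset

theorem p_ram : S_ram := by
  classical
  intro Q _ _ p r
  have := Fintype.ofFinite Q
  obtain ⟨N, hN⟩ := Pool.Agent.Lib.MP_2e96e9_co.ramsey_aux Q p (fun _ => r)
  refine ⟨N, fun f => ?_⟩
  let F : Finset (Fin N) → Q := fun A =>
    if h : A.card = p then f (A.orderEmbOfFin h) else Classical.arbitrary Q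
  obtain ⟨q, Y, -, hYc, hY⟩ := hN (Fin N) Finset.univ (by simp) F
  refine ⟨Y.orderEmbOfFin hYc, (Y.orderEmbOfFin hYc).strictMono, q, fun s hs => ?_⟩
  have hmono : StrictMono (fun j => Y.orderEmbOfFin hYc (s j)) :=
    (Y.orderEmbOfFin hYc).strictMono.comp hs
  let A : Finset (Fin N) := Finset.univ.image (fun j => Y.orderEmbOfFin hYc (s j))
  have hA : A.card = p := by
    show (Finset.univ.image (fun j => Y.orderEmbOfFin hYc (s j))).card = p
    rw [Finset.card_image_of_injective _ hmono.injective, Finset.card_univ, Fintype.card_fin]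
  have hAY : A ⊆ Y := by
    intro y hy
    obtain ⟨j, -, rfl⟩ := Finset.mem_image.1 hy
    exact Finset.orderEmbOfFin_mem Y hYc (s j)
  have h1 : F A = q := hY A hAY hA
  have h2 : F A = f (A.orderEmbOfFin hA) := dif_pos hA
  have h3 : (fun j => Y.orderEmbOfFin hYc (s j)) = A.orderEmbOfFin hA :=
    Finset.orderEmbOfFin_unique hA (fun j => Finset.mem_image_of_mem _ (Finset.mem_univ j)) hmono
  show f (fun j => Y.orderEmbOfFin hYc (s j)) = q
  rw [h3, ← h2, h1]

end Pool.Agent.Lib.MP_09bd9b_co
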