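import Pool.Agent.Lib.MP_09bd9b_co.Stm

set_option autoImplicit false

/-!
# MP_09bd9b_co, project CD, piece REL: the embedding for patterns of the first kind
-/

namespace Pool.Agent.Lib.MP_09bd9b_co

open Finset

/-- exchange of the two sums -/
private theorem rel_evp {q : ℕ} {F : Type} [Field F] (x : Fin q → Fin q → F) (a b : F) :
    evp (fun k => ∑ j, x j k * a ^ (j : ℕ)) b = evp (fun j => ∑ k, x j k * b ^ (k : ℕ)) a := by
  unfold evp
  simp only [Finset.sum_mul]
  rw [Finset.sum_comm]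
  refine Finset.sum_congr rfl fun j _ => Finset.sum_congr rfl fun k _ => ?_
  ring

theorem p_rel (h : S_rly) : S_rel := by
  intro q M
  obtain ⟨c, hc⟩ := h q M
  refine ⟨c, ?_⟩
  intro u U kap t K B F _ _ GB cl φ κ₀ i k w col hcl hi hk hcol hdense n V W _ H T hn hF
  obtain ⟨r, s, h1, h2, h3⟩ := hc F (fun κ => cl (i κ)) _ (hcl.comp hi) hdense n W T.J T.κ
    T.hcol hn hF
  -- the embedding
  let f : V → HV q t K B F := fun z => (φ (T.ϑ z), i (T.κ (T.β z)),
    (fun a => (k (T.κ (T.β z)) a, w a (k (T.κ (T.β z)) a))), r (T.β z), s (T.β z))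
  have hf : ∀ (z : V) (x : Fin q → Fin q → F),
      (fun k => ∑ j, x j k * cl (i (T.κ (T.β z))) ^ (j : ℕ)) = r (T.β z) →
      (fun j => ∑ k, x j k * cl (i (T.κ (T.β z))) ^ (k : ℕ)) = s (T.β z) →
      vert cl w x (φ (T.ϑ z)) (i (T.κ (T.β z)), k (T.κ (T.β z))) = f z := by
    intro z x hx hx'
    show (_, _, _, _, _) = ((_, _, _, _, _) : HV q t K B F)
    rw [← hx, ← hx']
  have hinj : Function.Injective f := by
    intro z z' hz
    have e1 : φ (T.ϑ z) = φ (T.ϑ z') := congrArg Prod.fst hz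
    have e2 : T.ϑ z = T.ϑ z' := φ.injective e1
    have e3 : T.κ (T.β z) = T.κ (T.β z') := by rw [← T.hkap, ← T.hkap, e2]
    have e4 : r (T.β z) = r (T.β z') := congrArg (fun y : HV q t K B F => y.2.2.2.1) hz
    exact T.hinj z z' (h2 _ _ e3 e4) e2
  have hadj : ∀ z z', (host (K := K) (q := q) GB cl).Adj (f z) (f z') ↔ H.Adj z z' := by
    intro z z'
    constructor
    · rintro ⟨hG, hor⟩
      have hU : U.Adj (T.ϑ z) (T.ϑ z') := φ.map_adj_iff.1 hG
      have hNb : Nb T.J (T.β z) (T.β z') := by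
        rcases hor with heq | ⟨-, -, hev, -⟩
        · left
          have e3 : T.κ (T.β z) = T.κ (T.β z') := hi (congrArg Prod.fst heq)
          have e4 : r (T.β z) = r (T.β z') :=
            congrArg (fun y : Fin t × (Fin q → Fin K × F) × (Fin q → F) × (Fin q → F) =>
              y.2.2.1) heq
          exact h2 _ _ e3 e4
        · exact h3 _ _ hev
      exact (T.htyp z z' (T.β z) (Or.inl rfl) hNb).2 hU
    · intro hH
      have hNb := T.hedge z z' hH
      have hU : U.Adj (T.ϑ z) (T.ϑ z') := (T.htyp z z' (T.β z) (Or.inl rfl) hNb).1 hH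
      refine ⟨φ.map_adj_iff.2 hU, ?_⟩
      by_cases hβ : T.β z = T.β z'
      · left
        show (_, _, _, _) = ((_, _, _, _) : Fin t × (Fin q → Fin K × F) × (Fin q → F) × (Fin q → F))
        rw [hβ]
      · right
        obtain ⟨x, -, hx1, hx2, hx3, hx4⟩ := h1 _ _ hNb
        refine ⟨?_, ?_, ?_, ?_⟩
        · intro he
          exact hβ (T.hcol _ _ _ _ (Or.inl rfl) (Or.inl rfl) hNb (hi he))
        · obtain ⟨a, ha⟩ := hk (T.κ (T.β z)) (T.κ (T.β z'))
          refine ⟨a, ?_⟩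
          show (k (T.κ (T.β z)) a, w a (k (T.κ (T.β z)) a)) =
            (k (T.κ (T.β z')) a, w a (k (T.κ (T.β z')) a))
          rw [ha]
        · show evp (r (T.β z)) (cl (i (T.κ (T.β z')))) = evp (s (T.β z')) (cl (i (T.κ (T.β z))))
          rw [← hx1, ← hx4]
          exact rel_evp x _ _
        · show evp (s (T.β z)) (cl (i (T.κ (T.β z')))) = evp (r (T.β z')) (cl (i (T.κ (T.β z))))
          rw [← hx2, ← hx3]
          exact (rel_evp x _ _).symm
  have hlt : ∀ z z', H.Adj z z' → T.ϑ z < T.ϑ z' → col (f z) (f z') = κ₀ := by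
    intro z z' hH hlt
    have hNb := T.hedge z z' hH
    have hU : U.Adj (T.ϑ z) (T.ϑ z') := (T.htyp z z' (T.β z) (Or.inl rfl) hNb).1 hH
    obtain ⟨x, hx, hx1, hx2, hx3, hx4⟩ := h1 _ _ hNb
    have hx5 := hx _ _ hlt hU
    rw [T.hkap, T.hkap, hf z x hx1 hx2, hf z' x hx3 hx4] at hx5
    exact hx5
  refine ⟨⟨⟨f, hinj⟩, fun {z z'} => hadj z z'⟩, ?_⟩
  intro z z' hH
  show col (f z) (f z') = κ₀
  have hNb := T.hedge z z' hH
  have hU : U.Adj (T.ϑ z) (T.ϑ z') := (T.htyp z z' (T.β z) (Or.inl rfl) hNb).1 hH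
  rcases lt_or_gt_of_ne hU.ne with hlt' | hgt
  · exact hlt z z' hH hlt'
  · rw [hcol]
    exact hlt z' z hH.symm hgt

end Pool.Agent.Lib.MP_09bd9b_co
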