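import Pool.Agent.Lib.MP_09bd9b_co.Stm

set_option autoImplicit false

/-!
# MP_09bd9b_co, project CD, piece RLY: row and column polynomials from DL
-/

namespace Pool.Agent.Lib.MP_09bd9b_co

open Finset

section rly

variable {q : ℕ} {W : Type} (J : SimpleGraph W) (κ : W → Fin q)

private theorem rly_refl (x : W) : Nb J x x := Or.inl rfl

variable {J} in
private theorem rly_symm {x y : W} (h : Nb J x y) : Nb J y x := by
  rcases h with h | h
  · exact Or.inl h.symm
  · exact Or.inr h.symm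

open Classical in
/-- the neighbour of a given class, if there is one -/
private noncomputable def rlyNb (β : W) (μ : Fin q) : W :=
  if h : ∃ β', Nb J β β' ∧ κ β' = μ then h.choose else β

open Classical in
/-- the name of a column -/
private noncomputable def rlyCol (β : W) (l : Fin q) : W ⊕ W ⊕ (W × Fin q) :=
  if h : ∃ β', Nb J β β' ∧ κ β' = l then Sum.inl h.choose else Sum.inr (Sum.inl β)

/-- the name of an edge -/
private noncomputable def rlyE (x : W × Fin q) (i : Fin q × Fin q) : W ⊕ W ⊕ (W × Fin q) :=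
  if i.1 = κ x.1 then Sum.inl x.1
  else if i.2 = κ x.1 then rlyCol J κ x.1 i.1
  else if i.1 = κ (rlyNb J κ x.1 x.2) then Sum.inl (rlyNb J κ x.1 x.2)
  else if i.2 = κ (rlyNb J κ x.1 x.2) then rlyCol J κ (rlyNb J κ x.1 x.2) i.1
  else Sum.inr (Sum.inr x)

/-- the owner of a name -/
private def rlyOwn : W ⊕ W ⊕ (W × Fin q) → W
  | Sum.inl γ => γ
  | Sum.inr (Sum.inl γ) => γ
  | Sum.inr (Sum.inr x) => x.1

private theorem rly_nb (β : W) (μ : Fin q) : Nb J β (rlyNb J κ β μ) := by
  unfold rlyNb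
  split_ifs with h
  · exact h.choose_spec.1
  · exact rly_refl J β

variable {J κ} in
private theorem rly_uniq (hcol : Col3 J κ) {β β' β'' : W} (h1 : Nb J β β') (h2 : Nb J β β'')
    (h3 : κ β' = κ β'') : β' = β'' :=
  hcol β' β β'' β'' (rly_symm h1) h2 (rly_refl J _) h3

variable {J κ} in
private theorem rly_nb_eq (hcol : Col3 J κ) {β β' : W} (h : Nb J β β') :
    rlyNb J κ β (κ β') = β' := by
  unfold rlyNb
  have h1 : ∃ β'', Nb J β β'' ∧ κ β'' = κ β' := ⟨β', h, rfl⟩
  rw [dif_pos h1]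
  exact rly_uniq hcol h1.choose_spec.1 h h1.choose_spec.2

variable {J κ} in
private theorem rly_col_eq (hcol : Col3 J κ) {β β' : W} (h : Nb J β β') :
    rlyCol J κ β (κ β') = Sum.inl β' := by
  unfold rlyCol
  have h1 : ∃ β'', Nb J β β'' ∧ κ β'' = κ β' := ⟨β', h, rfl⟩
  rw [dif_pos h1]
  exact congrArg Sum.inl (rly_uniq hcol h1.choose_spec.1 h h1.choose_spec.2)

private theorem rly_col_own (β : W) (l : Fin q) : Nb J (rlyOwn (rlyCol J κ β l)) β := by
  unfold rlyCol
  split_ifs with h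
  · exact rly_symm h.choose_spec.1
  · exact rly_refl J β

private theorem rly_col_inl {β β' : W} {l : Fin q} (h : Sum.inl β = rlyCol J κ β' l) :
    Nb J β β' := by
  have h1 := rly_col_own J κ β' l
  rw [← h] at h1
  exact h1

/-- the owner is at distance at most two from the edge -/
private theorem rly_own (x : W × Fin q) (i : Fin q × Fin q) :
    ∃ m, Nb J (rlyOwn (rlyE J κ x i)) m ∧ Nb J m x.1 := by
  unfold rlyE
  have h1 := rly_nb J κ x.1 x.2
  split_ifs
  · exact ⟨x.1, rly_refl J _, rly_refl J _⟩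
  · exact ⟨x.1, rly_col_own J κ _ _, rly_refl J _⟩
  · exact ⟨x.1, rly_symm h1, rly_refl J _⟩
  · exact ⟨_, rly_col_own J κ _ _, rly_symm h1⟩
  · exact ⟨x.1, rly_refl J _, rly_refl J _⟩

variable {J κ} in
/-- the degrees -/
private theorem rly_deg (hcol : Col3 J κ) (i : Fin q × Fin q) (ν : W ⊕ W ⊕ (W × Fin q)) :
    {x : W × Fin q | rlyE J κ x i = ν}.ncard ≤ q ^ 3 := by
  classical
  choose m hm1 hm2 using fun x : W × Fin q => rly_own J κ x i
  have h1 : {x : W × Fin q | rlyE J κ x i = ν}.ncard ≤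
      (Set.univ : Set (Fin q × Fin q × Fin q)).ncard := by
    refine Set.ncard_le_ncard_of_injOn (fun x => (κ (m x), κ x.1, x.2)) (fun _ _ => Set.mem_univ _)
      ?_ (Set.toFinite _)
    intro x hx x' hx' h
    simp only [Prod.mk.injEq] at h
    obtain ⟨h2, h3, h4⟩ := h
    have h5 : Nb J (rlyOwn ν) (m x) := by
      have := hm1 x
      rwa [show rlyE J κ x i = ν from hx] at this
    have h6 : Nb J (rlyOwn ν) (m x') := by
      have := hm1 x'
      rwa [show rlyE J κ x' i = ν from hx'] at this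
    have h7 : m x = m x' := rly_uniq hcol h5 h6 h2
    have h8 : x.1 = x'.1 := by
      refine rly_uniq hcol (hm2 x) ?_ h3
      rw [h7]
      exact hm2 x'
    exact Prod.ext h8 h4
  refine h1.trans (le_of_eq ?_)
  rw [Set.ncard_univ, Nat.card_eq_fintype_card, Fintype.card_prod, Fintype.card_prod,
    Fintype.card_fin]
  ring

end rly

theorem p_rly (hdl : S_dl) (hvan : S_van) (hevi : S_evi) : S_rly := by
  classical
  intro q M
  obtain ⟨c₀, hc₀⟩ := hdl (q ^ 2) (q ^ 3) M
  refine ⟨c₀ * (2 + q) ^ 2, ?_⟩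
  intro F _ _ v A hv hA n W _ J κ hcol hW hn
  -- the dense hypergraph
  obtain ⟨Ψ, hΨ⟩ : ∃ Ψ : (Fin q → Fin q → F) → (Fin q × Fin q → F),
    Ψ = fun (x : Fin q → Fin q → F) (p : Fin q × Fin q) =>
      ∑ j : Fin q, ∑ k : Fin q, x j k * v p.1 ^ (j : ℕ) * v p.2 ^ (k : ℕ) := ⟨_, rfl⟩
  have hΨinj : Function.Injective Ψ := by
    intro x x' h
    apply (hvan q F v hv).1
    funext a b
    have := congrFun h (a, b)
    rw [hΨ] at this
    exact this
  have hA' : (Ψ '' A).ncard = A.ncard := Set.ncard_image_of_injective A hΨinj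
  obtain ⟨Y, hY, hYA⟩ := hc₀ (Fin q × Fin q) F (W ⊕ W ⊕ (W × Fin q)) (W × Fin q) ((2 + q) * n)
    (by rw [Fintype.card_prod, Fintype.card_fin, pow_two])
    (by
      rw [Fintype.card_sum, Fintype.card_sum, Fintype.card_prod, Fintype.card_fin]
      have : Fintype.card W + (Fintype.card W + Fintype.card W * q) =
          (2 + q) * Fintype.card W := by ring
      rw [this]
      exact Nat.mul_le_mul_left _ hW)
    (by
      refine le_trans (le_of_eq ?_) hn
      ring)
    (Ψ '' A) (by rw [hA']; exact hA) (rlyE J κ) (fun i ν => rly_deg hcol i ν)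
  -- the polynomials
  have hr : ∀ β : W, ∃ r : Fin q → F, ∀ μ, evp r (v μ) = Y (κ β, μ) (Sum.inl β) := by
    intro β
    obtain ⟨r, hr⟩ := (hevi q F v hv).2 (fun μ => Y (κ β, μ) (Sum.inl β))
    exact ⟨r, fun μ => congrFun hr μ⟩
  have hc : ∀ β : W, ∃ c : Fin q → F, ∀ l, evp c (v l) = Y (l, κ β) (rlyCol J κ β l) := by
    intro β
    obtain ⟨c, hc⟩ := (hevi q F v hv).2 (fun l => Y (l, κ β) (rlyCol J κ β l))
    exact ⟨c, fun l => congrFun hc l⟩
  choose r hr using hr
  choose c hc using hc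
  have hinj := (hevi q F v hv).1
  refine ⟨r, c, fun β β' hβ => ?_, fun β β' hκ h => ?_, fun β β' h => ?_⟩
  · obtain ⟨x, hxA, hx⟩ := hYA (β, κ β')
    have hx' : ∀ l μ, ∑ j : Fin q, ∑ k : Fin q, x j k * v l ^ (j : ℕ) * v μ ^ (k : ℕ) =
        Y (l, μ) (rlyE J κ (β, κ β') (l, μ)) := by
      intro l μ
      have := congrFun hx (l, μ)
      rw [hΨ] at this
      exact this
    have hrow : ∀ l μ, evp (fun k => ∑ j : Fin q, x j k * v l ^ (j : ℕ)) (v μ) =
        Y (l, μ) (rlyE J κ (β, κ β') (l, μ)) := by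
      intro l μ
      rw [← hx' l μ]
      unfold evp
      rw [Finset.sum_comm]
      exact Finset.sum_congr rfl fun k _ => Finset.sum_mul _ _ _
    have hcolm : ∀ l μ, evp (fun j => ∑ k : Fin q, x j k * v μ ^ (k : ℕ)) (v l) =
        Y (l, μ) (rlyE J κ (β, κ β') (l, μ)) := by
      intro l μ
      rw [← hx' l μ]
      unfold evp
      refine Finset.sum_congr rfl fun j _ => ?_
      rw [Finset.sum_mul]
      exact Finset.sum_congr rfl fun k _ => by ring
    have hnb : rlyNb J κ β (κ β') = β' := rly_nb_eq hcol hβ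
    have hββ : rlyCol J κ β (κ β) = Sum.inl β := rly_col_eq hcol (rly_refl J β)
    have hββ' : rlyCol J κ β (κ β') = Sum.inl β' := rly_col_eq hcol hβ
    have hβ'β : rlyCol J κ β' (κ β) = Sum.inl β := rly_col_eq hcol (rly_symm hβ)
    have hβ'β' : rlyCol J κ β' (κ β') = Sum.inl β' := rly_col_eq hcol (rly_refl J β')
    have heq : κ β' = κ β → β' = β := fun h => rly_uniq hcol hβ (rly_refl J β) h
    have hE : ∀ l μ, rlyE J κ (β, κ β') (l, μ) =
        if l = κ β then Sum.inl β else if μ = κ β then rlyCol J κ β l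
        else if l = κ β' then Sum.inl β' else if μ = κ β' then rlyCol J κ β' l
        else Sum.inr (Sum.inr (β, κ β')) := by
      intro l μ
      unfold rlyE
      simp only [hnb]
    refine ⟨x, hxA, hinj (funext fun μ => ?_), hinj (funext fun l => ?_),
      hinj (funext fun μ => ?_), hinj (funext fun l => ?_)⟩
    · change evp (fun k => ∑ j : Fin q, x j k * v (κ β) ^ (j : ℕ)) (v μ) = evp (r β) (v μ)
      rw [hrow, hr, hE, if_pos rfl]
    · change evp (fun j => ∑ k : Fin q, x j k * v (κ β) ^ (k : ℕ)) (v l) = evp (c β) (v l)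
      rw [hcolm, hc, hE]
      by_cases h1 : l = κ β
      · rw [if_pos h1, h1, hββ]
      · rw [if_neg h1, if_pos rfl]
    · change evp (fun k => ∑ j : Fin q, x j k * v (κ β') ^ (j : ℕ)) (v μ) = evp (r β') (v μ)
      rw [hrow, hr, hE]
      by_cases h1 : κ β' = κ β
      · rw [if_pos h1, heq h1]
      · rw [if_neg h1]
        by_cases h2 : μ = κ β
        · rw [if_pos h2, hββ']
        · rw [if_neg h2, if_pos rfl]
    · change evp (fun j => ∑ k : Fin q, x j k * v (κ β') ^ (k : ℕ)) (v l) = evp (c β') (v l)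
      rw [hcolm, hc, hE]
      by_cases h1 : l = κ β
      · rw [if_pos h1, h1, hβ'β]
      · rw [if_neg h1]
        by_cases h2 : κ β' = κ β
        · rw [if_pos h2, heq h2]
        · rw [if_neg h2]
          by_cases h3 : l = κ β'
          · rw [if_pos h3, h3, hβ'β']
          · rw [if_neg h3, if_pos rfl]
  · have h1 : Y (κ β, κ β) (Sum.inl β) = Y (κ β, κ β) (Sum.inl β') := by
      rw [← hr β (κ β), h, hr β' (κ β), hκ]
    exact Sum.inl_injective (hY _ h1)
  · rw [hr, hc] at h
    exact rly_col_inl J κ (hY _ h)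

end Pool.Agent.Lib.MP_09bd9b_co
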