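import Pool.Agent.Lib.MP_09bd9b_co.Stm

set_option autoImplicit false

/-!
# MP_09bd9b_co, project CD, piece STR: the embedding for patterns of the second kind
-/

namespace Pool.Agent.Lib.MP_09bd9b_co

open Finset

/-- the two ways of evaluating `x` -/
private theorem str_comm {q : ℕ} {F : Type} [Field F] (x : Fin q → Fin q → F) (C C' : F) :
    evp (fun k => ∑ j, x j k * C ^ (j : ℕ)) C' = evp (fun j => ∑ k, x j k * C' ^ (k : ℕ)) C := by
  unfold evp
  simp only [Finset.sum_mul]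
  rw [Finset.sum_comm]
  refine Finset.sum_congr rfl fun j _ => Finset.sum_congr rfl fun k _ => ?_
  ring

theorem p_str (h : S_sty) : S_str := by
  intro q K M
  obtain ⟨c, hc⟩ := h q K M
  refine ⟨c, ?_⟩
  intro u U kap t B F _ _ GB cl φ κ₀ i e x col hi he hsym hdense n V W _ H T hW hF
  obtain ⟨m, val, h1, h2, h3⟩ := hc F e _ he hdense n W T.J T.κ T.hcol hW hF
  set f : V → HV q t K B F := fun z => (φ (T.ϑ z), i (T.ϑ z),
    (fun a => (e a (m (T.β z) a), val (T.β z) a)),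
    (fun k => ∑ j, x j k * cl (i (T.ϑ z)) ^ (j : ℕ)),
    (fun j => ∑ k, x j k * cl (i (T.ϑ z)) ^ (k : ℕ))) with hf
  have hvert : ∀ (z : V) (w : Fin q → Fin K → F),
      (∀ a, w a (e a (m (T.β z) a)) = val (T.β z) a) →
      vert cl w x (φ (T.ϑ z)) (i (T.ϑ z), fun a => e a (m (T.β z) a)) = f z := by
    intro z w hw
    simp only [vert, hf, hw]
  have hadjU : ∀ z z', H.Adj z z' → U.Adj (T.ϑ z) (T.ϑ z') := fun z z' hz =>
    (T.htyp z z' (T.β z) (Or.inl rfl) (T.hedge z z' hz)).1 hz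
  have hinj : Function.Injective f := by
    intro z z' hz
    simp only [hf, Prod.mk.injEq] at hz
    obtain ⟨ha, -, hb, -, -⟩ := hz
    have hth : T.ϑ z = T.ϑ z' := φ.injective ha
    have hk : T.κ (T.β z) = T.κ (T.β z') := by
      rw [← T.hkap, ← T.hkap, hth]
    have hl := congrFun hb (T.κ (T.β z))
    rw [Prod.mk.injEq] at hl
    have hm := he _ hl.1
    exact T.hinj z z' (h2 _ _ hk hm hl.2) hth
  have hrel : ∀ z z', (host GB cl).Adj (f z) (f z') ↔ H.Adj z z' := by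
    intro z z'
    constructor
    · rintro ⟨hG, hcase⟩
      have hU : U.Adj (T.ϑ z) (T.ϑ z') := φ.map_rel_iff.1 hG
      rcases hcase with heq | ⟨-, ⟨a, ha⟩, -, -⟩
      · exfalso
        have h4 : i (T.ϑ z) = i (T.ϑ z') := congrArg Prod.fst heq
        exact hU.ne (hi h4)
      · simp only [hf, Prod.mk.injEq] at ha
        obtain ⟨ρ, hρ1, hρ2⟩ := h3 _ _ a (he _ ha.1) ha.2
        exact (T.htyp z z' ρ hρ1 hρ2).2 hU
    · intro hz
      have hU := hadjU z z' hz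
      refine ⟨φ.map_rel_iff.2 hU, Or.inr ⟨fun h4 => hU.ne (hi h4), ?_, ?_, ?_⟩⟩
      · obtain ⟨hm, w, -, hw1, hw2⟩ := h1 _ _ (T.hedge z z' hz)
        refine ⟨T.κ (T.β z), ?_⟩
        simp only [hf, Prod.mk.injEq]
        refine ⟨by rw [hm], ?_⟩
        rw [← hw1, ← hw2, hm]
      · exact str_comm x (cl (i (T.ϑ z))) (cl (i (T.ϑ z')))
      · exact (str_comm x (cl (i (T.ϑ z'))) (cl (i (T.ϑ z)))).symm
  have hcolor : ∀ z z', H.Adj z z' → T.ϑ z < T.ϑ z' → col (f z) (f z') = κ₀ := by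
    intro z z' hz hlt
    obtain ⟨hm, w, hwA, hw1, hw2⟩ := h1 _ _ (T.hedge z z' hz)
    have h5 := hwA (T.ϑ z) (T.ϑ z') hlt (hadjU z z' hz) (m (T.β z)) (m (T.β z'))
      ⟨T.κ (T.β z), hm⟩
    rw [hvert z w hw1, hvert z' w hw2] at h5
    exact h5
  refine ⟨⟨⟨f, hinj⟩, fun {z z'} => hrel z z'⟩, ?_⟩
  intro z z' hz
  change col (f z) (f z') = κ₀
  rcases lt_trichotomy (T.ϑ z) (T.ϑ z') with hlt | heq | hgt
  · exact hcolor z z' hz hlt
  · exact absurd heq (hadjU z z' hz).ne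
  · rw [hsym]
    exact hcolor z' z hz.symm hgt

end Pool.Agent.Lib.MP_09bd9b_co
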