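import Pool.Agent.Lib.MP_09bd9b_co.Stm

set_option autoImplicit false

/-!
# MP_09bd9b_co, project CD, piece TYP: types and the graph `U`
-/

namespace Pool.Agent.Lib.MP_09bd9b_co

open Finset

private abbrev typ_R (q s : ℕ) : Type := Fin s × (Fin q × Fin s → Bool)

private noncomputable def typ_enc (q s : ℕ) :
    Fin q × typ_R q s ≃ Fin (q * Fintype.card (typ_R q s)) :=
  (Equiv.prodCongr (Equiv.refl (Fin q)) (Fintype.equivFin (typ_R q s))).trans finProdFinEquiv

private def typ_adj (q s : ℕ) (a a' : Fin q × typ_R q s) : Prop :=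
  (a.1, a.2.1) ≠ (a'.1, a'.2.1) ∧ a.2.2 (a'.1, a'.2.1) = true ∧ a'.2.2 (a.1, a.2.1) = true

private noncomputable def typ_U (q s : ℕ) :
    SimpleGraph (Fin (q * Fintype.card (typ_R q s))) where
  Adj a a' := typ_adj q s ((typ_enc q s).symm a) ((typ_enc q s).symm a')
  symm := ⟨fun _ _ h => ⟨h.1.symm, h.2.2, h.2.1⟩⟩
  loopless := ⟨fun _ h => h.1 rfl⟩

private noncomputable def typ_kap (q s : ℕ) (a : Fin (q * Fintype.card (typ_R q s))) : Fin q :=
  ((typ_enc q s).symm a).1

private theorem typ_kap_eq (q s : ℕ) (a : Fin (q * Fintype.card (typ_R q s))) :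
    (typ_kap q s a : ℕ) = a.val / Fintype.card (typ_R q s) := rfl

private theorem typ_nb_symm {W : Type} {J : SimpleGraph W} {x y : W} (h : Nb J x y) : Nb J y x :=
  h.elim (fun h => Or.inl h.symm) (fun h => Or.inr h.symm)

private theorem typ_nb_refl {W : Type} {J : SimpleGraph W} (x : W) : Nb J x x := Or.inl rfl

theorem p_typ : S_typ := by
  intro q s
  classical
  refine ⟨q * Fintype.card (typ_R q s), typ_U q s, typ_kap q s, ?_, ?_⟩
  · intro a a' h
    rw [Fin.le_def, typ_kap_eq, typ_kap_eq]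
    exact Nat.div_le_div_right h
  · intro V W H J β κ σ hedge hcol hinj
    set b : V → Fin q × Fin s → Bool := fun z p =>
      decide (∃ z'', H.Adj z z'' ∧ κ (β z'') = p.1 ∧ σ z'' = p.2) with hb
    set ϑ : V → Fin (q * Fintype.card (typ_R q s)) := fun z =>
      typ_enc q s (κ (β z), (σ z, b z)) with hϑ
    have hdec : ∀ z, (typ_enc q s).symm (ϑ z) = (κ (β z), (σ z, b z)) := by
      intro z
      rw [hϑ]
      exact Equiv.symm_apply_apply _ _
    have hadj : ∀ z z', (typ_U q s).Adj (ϑ z) (ϑ z') ↔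
        ((κ (β z), σ z) ≠ (κ (β z'), σ z') ∧ b z (κ (β z'), σ z') = true ∧
          b z' (κ (β z), σ z) = true) := by
      intro z z'
      show typ_adj q s ((typ_enc q s).symm (ϑ z)) ((typ_enc q s).symm (ϑ z')) ↔ _
      rw [hdec, hdec]
      rfl
    have hbt : ∀ z z', H.Adj z z' → b z (κ (β z'), σ z') = true := by
      intro z z' h
      rw [hb]
      exact decide_eq_true ⟨z', h, rfl, rfl⟩
    refine ⟨⟨J, β, κ, ϑ, hedge, hcol, ?_, ?_, ?_⟩⟩
    · intro z z' x h1 h2
      rw [hadj]
      constructor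
      · intro h
        refine ⟨?_, hbt z z' h, hbt z' z h.symm⟩
        intro heq
        rw [Prod.mk.injEq] at heq
        have h3 := hcol (β z) (β z) (β z) (β z') (typ_nb_refl _) (typ_nb_refl _) (hedge z z' h)
          heq.1
        have h4 := hinj z z' h3 heq.2
        rw [h4] at h
        exact H.irrefl h
      · rintro ⟨-, h3, -⟩
        rw [hb] at h3
        obtain ⟨z'', h4, h5, h6⟩ := of_decide_eq_true h3
        have h7 := hcol (β z'') (β z) x (β z') (typ_nb_symm (hedge z z'' h4)) h1 h2 h5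
        rw [← hinj z'' z' h7 h6]
        exact h4
    · intro z z' h1 h2
      have h3 := congrArg (typ_enc q s).symm h2
      rw [hdec, hdec, Prod.mk.injEq, Prod.mk.injEq] at h3
      exact hinj z z' h1 h3.2.1
    · intro z
      show ((typ_enc q s).symm (ϑ z)).1 = κ (β z)
      rw [hdec]

end Pool.Agent.Lib.MP_09bd9b_co
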