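import Pool.Agent.Lib.MP_09bd9b_co.Stm

set_option autoImplicit false

namespace Pool.Agent.Lib.MP_09bd9b_co

theorem p_van : S_van := by
  intro q F _ v hv
  set V : Matrix (Fin q) (Fin q) F := Matrix.vandermonde v with hV
  have hdet : IsUnit V.det := by
    rw [isUnit_iff_ne_zero]
    exact Matrix.det_vandermonde_ne_zero_iff.2 hv
  have hdetT : IsUnit V.transpose.det := by rw [Matrix.det_transpose]; exact hdet
  have key : ∀ x : Fin q → Fin q → F, (fun a b => ∑ j, ∑ k, x j k * v a ^ (j : ℕ) * v b ^ (k : ℕ)) =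
      fun a b => (V * Matrix.of x * V.transpose) a b := by
    intro x
    funext a b
    rw [Matrix.mul_apply]
    simp only [Matrix.mul_apply, Matrix.transpose_apply, Matrix.of_apply]
    rw [Finset.sum_comm]
    apply Finset.sum_congr rfl
    intro k _
    rw [Finset.sum_mul]
    apply Finset.sum_congr rfl
    intro j _
    rw [hV, Matrix.vandermonde_apply, Matrix.vandermonde_apply]
    ring
  rw [Function.bijective_iff_has_inverse]
  refine ⟨fun y a b => (V⁻¹ * Matrix.of y * V.transpose⁻¹) a b, ?_, ?_⟩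
  · intro x
    funext a b
    have h1 := key x
    simp only at h1 ⊢
    rw [h1]
    have h2 : V⁻¹ * Matrix.of (fun a b => (V * Matrix.of x * V.transpose) a b) * V.transpose⁻¹ =
        Matrix.of x := by
      have h3 : Matrix.of (fun a b => (V * Matrix.of x * V.transpose) a b) =
          V * Matrix.of x * V.transpose := rfl
      rw [h3, Matrix.mul_assoc, Matrix.mul_assoc, Matrix.mul_nonsing_inv _ hdetT, Matrix.mul_one,
        ← Matrix.mul_assoc, Matrix.nonsing_inv_mul _ hdet, Matrix.one_mul]
    rw [h2]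
    rfl
  · intro y
    have h1 := key (fun a b => (V⁻¹ * Matrix.of y * V.transpose⁻¹) a b)
    simp only at h1 ⊢
    rw [h1]
    have h3 : Matrix.of (fun a b => (V⁻¹ * Matrix.of y * V.transpose⁻¹) a b) =
        V⁻¹ * Matrix.of y * V.transpose⁻¹ := rfl
    rw [h3, Matrix.mul_assoc, Matrix.mul_assoc, Matrix.nonsing_inv_mul _ hdetT, Matrix.mul_one,
        ← Matrix.mul_assoc, Matrix.mul_nonsing_inv _ hdet, Matrix.one_mul]
    rfl

end Pool.Agent.Lib.MP_09bd9b_co
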