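import Pool.Agent.Lib.MP_09bd9b_co.Main
import Pool.Agent.Lib.MP_09bd9b_co.P_ram
import Pool.Agent.Lib.MP_09bd9b_co.P_drc
import Pool.Agent.Lib.MP_09bd9b_co.P_dl
import Pool.Agent.Lib.MP_09bd9b_co.P_ord
import Pool.Agent.Lib.MP_09bd9b_co.P_gra
import Pool.Agent.Lib.MP_09bd9b_co.P_fin
import Pool.Agent.Lib.MP_09bd9b_co.P_van
import Pool.Agent.Lib.MP_09bd9b_co.P_evi
import Pool.Agent.Lib.MP_09bd9b_co.P_rly
import Pool.Agent.Lib.MP_09bd9b_co.P_rel
import Pool.Agent.Lib.MP_09bd9b_co.P_sty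
import Pool.Agent.Lib.MP_09bd9b_co.P_str
import Pool.Agent.Lib.MP_09bd9b_co.P_col
import Pool.Agent.Lib.MP_09bd9b_co.P_typ
import Pool.Agent.Lib.MP_09bd9b_co.P_pig
import Pool.Agent.Lib.MP_09bd9b_co.P_dbl

set_option autoImplicit false

/-!
# MP_09bd9b_co, project CD: the main theorem and the corollary without hypotheses
-/

namespace Pool.Agent.Lib.MP_09bd9b_co

/-- the main theorem -/
theorem coarse (D s : ℕ) : ∃ c : ℕ, ∀ n : ℕ, ∃ N : ℕ, N ≤ c * n ^ (6 * (D + 1) ^ 3) ∧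
    ∃ G : SimpleGraph (Fin N), Universal n (fun H => Coarse D s H) G :=
  have hdl : S_dl := p_dl p_drc
  main_explicit (p_fin (p_ord p_ram hdl) (p_gra p_ram)) (p_rel (p_rly hdl p_van p_evi))
    (p_str (p_sty hdl)) p_col p_typ p_pig D s

/-- the corollary for graphs which are doubling on large scales -/
theorem doubling (k Δ R : ℕ) : ∃ c : ℕ, ∀ n : ℕ, ∃ N : ℕ, N ≤ c * n ^ (6 * (k ^ 3 + 1) ^ 3) ∧
    ∃ G : SimpleGraph (Fin N), Universal n
      (fun H => (∀ v, (H.neighborSet v).ncard ≤ Δ) ∧ CoarseDoubling k R H) G :=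
  cor_explicit p_dbl k Δ R (fun s => coarse (k ^ 3) s)

end Pool.Agent.Lib.MP_09bd9b_co
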