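import Pool.Agent.Lib.MP_09bd9b_co.Stm

set_option autoImplicit false

/-!
# MP_09bd9b_co, project CD: assembly of the main theorem and the corollary
-/

namespace Pool.Agent.Lib.MP_09bd9b_co

open Finset

private abbrev DR (u q t K : ℕ) (B : Type) : Type :=
  (Fin u → B) × Bool × (Fin q → Fin t) × (Fin q → Fin q → Fin K)

private abbrev DS (u q t K : ℕ) (B : Type) : Type :=
  (Fin u → B) × Bool × (Fin u → Fin t) × (Fin q → Fin q → Fin K)

/-- the core: a colouring of the host has a homogeneous colour class -/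
private theorem core (hrel : S_rel) (hstr : S_str) (hpig : S_pig) {q u : ℕ}
    (U : SimpleGraph (Fin u)) (kap : Fin u → Fin q) (hmono : Monotone kap)
    (t K : ℕ) (B : Type) [Fintype B] (GB : SimpleGraph B)
    (hF : ∀ Φ : B → B → Pos q t K → Pos q t K → Bool, ∃ (φ : U ↪g GB) (κ₀ : Bool)
      (g : Pos q t K → Pos q t K → Bool), (∀ a b, a < b → U.Adj a b → Φ (φ a) (φ b) = g) ∧
      ((∃ i k, RelP g κ₀ i k) ∨ (∃ i e, StrP u g κ₀ i e))) :
    ∃ c : ℕ, ∀ (n : ℕ) (F : Type) [Field F] [Fintype F] (cl : Fin t → F),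
      Function.Injective cl → c * n ^ 2 ≤ Fintype.card F →
      ∀ col : HV q t K B F → HV q t K B F → Bool, (∀ x y, col x y = col y x) →
      ∃ κ₀ : Bool, ∀ (V W : Type) [Fintype W] (H : SimpleGraph V), Typed U kap H W →
        Fintype.card W ≤ n → ∃ f : H ↪g host (K := K) (q := q) GB cl,
          ∀ z z', H.Adj z z' → col (f z) (f z') = κ₀ := by
  classical
  obtain ⟨cR, hR⟩ := hrel q (Fintype.card (DR u q t K B) + Fintype.card (DS u q t K B))
  obtain ⟨cS, hS⟩ := hstr q K (Fintype.card (DR u q t K B) + Fintype.card (DS u q t K B))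
  refine ⟨cR + cS, ?_⟩
  intro n F _ _ cl hcl hbig col hsym
  have key : ∀ (w : Fin q → Fin K → F) (x : Fin q → Fin q → F), ∃ d : DR u q t K B ⊕ DS u q t K B,
      (∀ d₁ : DR u q t K B, d = Sum.inl d₁ →
        (∃ φ : U ↪g GB, ∀ a, φ a = d₁.1 a) ∧ Function.Injective d₁.2.2.1 ∧
        (∀ κ κ', ∃ a, d₁.2.2.2 κ a = d₁.2.2.2 κ' a) ∧
        ∀ a b : Fin u, a < b → U.Adj a b →
          col (vert cl w x (d₁.1 a) (d₁.2.2.1 (kap a), d₁.2.2.2 (kap a)))
            (vert cl w x (d₁.1 b) (d₁.2.2.1 (kap b), d₁.2.2.2 (kap b))) = d₁.2.1) ∧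
      (∀ d₁ : DS u q t K B, d = Sum.inr d₁ →
        (∃ φ : U ↪g GB, ∀ a, φ a = d₁.1 a) ∧ Function.Injective d₁.2.2.1 ∧
        (∀ a, Function.Injective (d₁.2.2.2 a)) ∧
        ∀ a b : Fin u, a < b → U.Adj a b → ∀ m m' : Fin q → Fin q, (∃ y, m y = m' y) →
          col (vert cl w x (d₁.1 a) (d₁.2.2.1 a, fun y => d₁.2.2.2 y (m y)))
            (vert cl w x (d₁.1 b) (d₁.2.2.1 b, fun y => d₁.2.2.2 y (m' y))) = d₁.2.1) := by
    intro w x
    obtain ⟨φ, κ₀, g, hg, hpat⟩ := hF (fun b b' p p' => col (vert cl w x b p) (vert cl w x b' p'))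
    rcases hpat with ⟨i, k, hi, hk, hgk⟩ | ⟨i, e, hi, he, hge⟩
    · refine ⟨Sum.inl (fun a => φ a, κ₀, i, k), ?_, ?_⟩
      · rintro d₁ hd
        obtain rfl := Sum.inl.inj hd
        refine ⟨⟨φ, fun a => rfl⟩, hi.injective, hk, ?_⟩
        intro a b hab hadj
        have h1 := congrFun (congrFun (hg a b hab hadj) (i (kap a), k (kap a)))
          (i (kap b), k (kap b))
        exact h1.trans (hgk _ _ (hmono hab.le))
      · rintro d₁ hd
        cases hd
    · refine ⟨Sum.inr (fun a => φ a, κ₀, i, e), ?_, ?_⟩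
      · rintro d₁ hd
        cases hd
      · rintro d₁ hd
        obtain rfl := Sum.inr.inj hd
        refine ⟨⟨φ, fun a => rfl⟩, hi.injective, fun a => (he a).injective, ?_⟩
        intro a b hab hadj m m' hm
        have h1 := congrFun (congrFun (hg a b hab hadj) (i a, fun y => e y (m y)))
          (i b, fun y => e y (m' y))
        exact h1.trans (hge a b hab m m' hm)
  choose δ hδ1 hδ2 using key
  have hcR : cR * n ^ 2 ≤ Fintype.card F :=
    le_trans (Nat.mul_le_mul_right _ (Nat.le_add_right _ _)) hbig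
  have hcS : cS * n ^ 2 ≤ Fintype.card F :=
    le_trans (Nat.mul_le_mul_right _ (Nat.le_add_left _ _)) hbig
  rcases hpig (Fin q → Fin q → F) (Fin q → Fin K → F) (DR u q t K B) (DS u q t K B) δ with
    ⟨d, w, hd⟩ | ⟨d, x, hd⟩
  · have hX : Fintype.card (Fin q → Fin q → F) = Fintype.card F ^ (q ^ 2) := by
      rw [Fintype.card_fun, Fintype.card_fun, Fintype.card_fin, ← pow_mul, sq]
    rw [hX] at hd
    have hpos : 0 < Fintype.card F ^ (q ^ 2) := pow_pos Fintype.card_pos _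
    have hne : {x : Fin q → Fin q → F | δ w x = Sum.inl d}.Nonempty := by
      rw [Set.nonempty_iff_ne_empty]
      intro h0
      rw [h0, Set.ncard_empty, mul_zero] at hd
      omega
    obtain ⟨x₀, hx₀⟩ := hne
    obtain ⟨⟨φ, hφ⟩, hi, hk, -⟩ := hδ1 w x₀ d hx₀
    obtain ⟨f, κ₀, i, k⟩ := d
    obtain rfl : f = fun a => φ a := funext fun a => (hφ a).symm
    refine ⟨κ₀, ?_⟩
    intro V W _ H hT hW
    refine hR u U kap t K B F GB cl φ κ₀ i k w col hcl hi hk hsym ?_ n V W H hT hW hcR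
    refine le_trans hd (Nat.mul_le_mul_left _ (Set.ncard_le_ncard ?_ (Set.toFinite _)))
    intro x hx
    exact (hδ1 w x _ hx).2.2.2
  · have hX : Fintype.card (Fin q → Fin K → F) = Fintype.card F ^ (q * K) := by
      rw [Fintype.card_fun, Fintype.card_fun, Fintype.card_fin, Fintype.card_fin, ← pow_mul,
        mul_comm]
    rw [hX] at hd
    have hpos : 0 < Fintype.card F ^ (q * K) := pow_pos Fintype.card_pos _
    have hne : {w : Fin q → Fin K → F | δ w x = Sum.inr d}.Nonempty := by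
      rw [Set.nonempty_iff_ne_empty]
      intro h0
      rw [h0, Set.ncard_empty, mul_zero] at hd
      omega
    obtain ⟨w₀, hw₀⟩ := hne
    obtain ⟨⟨φ, hφ⟩, hi, he, -⟩ := hδ2 w₀ x d hw₀
    obtain ⟨f, κ₀, i, e⟩ := d
    obtain rfl : f = fun a => φ a := funext fun a => (hφ a).symm
    refine ⟨κ₀, ?_⟩
    intro V W _ H hT hW
    refine hS u U kap t B F GB cl φ κ₀ i e x col hi he hsym ?_ n V W H hT hW hcS
    refine le_trans hd (Nat.mul_le_mul_left _ (Set.ncard_le_ncard ?_ (Set.toFinite _)))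
    intro w hw
    exact (hδ2 w x _ hw).2.2.2

private theorem card_HV (q t K p : ℕ) (B : Type) [Fintype B] [NeZero p] :
    Fintype.card (HV q t K B (ZMod p)) =
      Fintype.card B * (t * ((K * p) ^ q * (p ^ q * p ^ q))) := by
  simp only [HV, Fintype.card_prod, Fintype.card_fin, Fintype.card_fun, ZMod.card]

private theorem cl_inj (t p : ℕ) (h : t ≤ p) [NeZero p] :
    Function.Injective (fun i : Fin t => ((i : ℕ) : ZMod p)) := by
  intro i j hij
  have h1 : ((i : ℕ) : ZMod p) = ((j : ℕ) : ZMod p) := hij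
  rw [ZMod.natCast_eq_natCast_iff] at h1
  have h2 := Nat.ModEq.eq_of_lt_of_lt h1 (lt_of_lt_of_le i.2 h) (lt_of_lt_of_le j.2 h)
  exact Fin.ext h2

/-- the main theorem with an explicit exponent -/
theorem main_explicit (hfin : S_fin) (hrel : S_rel) (hstr : S_str) (hcol : S_col) (htyp : S_typ)
    (hpig : S_pig) (D s : ℕ) : ∃ c : ℕ, ∀ n : ℕ, ∃ N : ℕ, N ≤ c * n ^ (6 * (D + 1) ^ 3) ∧
      ∃ G : SimpleGraph (Fin N), Universal n (fun H => Coarse D s H) G := by
  classical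
  have hq : 0 < (D + 1) ^ 3 := by positivity
  generalize hqd : (D + 1) ^ 3 = q at hq ⊢
  obtain ⟨u, U, kap, hmono, hTyp⟩ := htyp q s
  obtain ⟨t, K, B, _, GB, hF⟩ := hfin q u U hq
  obtain ⟨c, hc⟩ := core hrel hstr hpig U kap hmono t K B GB hF
  refine ⟨Fintype.card B * t * K ^ q * (2 * (c + t + 1)) ^ (3 * q), ?_⟩
  intro n
  rcases Nat.eq_zero_or_pos n with rfl | hn
  · refine ⟨0, Nat.zero_le _, ⊥, ?_⟩
    intro col
    refine ⟨true, ?_⟩
    intro H _
    refine ⟨⟨⟨fun x => x.elim0, fun x => x.elim0⟩, fun {x} => x.elim0⟩, fun x => x.elim0⟩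
  · have ha : (c + t + 1) * n ^ 2 ≠ 0 := by positivity
    obtain ⟨p, hp, hap, hpa⟩ := Nat.exists_prime_lt_and_le_two_mul _ ha
    have : Fact p.Prime := ⟨hp⟩
    have hn2 : 1 ≤ n ^ 2 := Nat.one_le_pow _ _ hn
    have htp : t ≤ p := by
      have h1 : t * 1 ≤ (c + t + 1) * n ^ 2 := Nat.mul_le_mul (by omega) hn2
      omega
    have hcp : c * n ^ 2 ≤ Fintype.card (ZMod p) := by
      rw [ZMod.card]
      have h1 : c * n ^ 2 ≤ (c + t + 1) * n ^ 2 := Nat.mul_le_mul_right _ (by omega)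
      omega
    have hcard : Fintype.card (HV q t K B (ZMod p)) ≤
        Fintype.card B * t * K ^ q * (2 * (c + t + 1)) ^ (3 * q) * n ^ (6 * q) := by
      rw [card_HV]
      have h1 : p ^ (3 * q) ≤ (2 * (c + t + 1)) ^ (3 * q) * n ^ (6 * q) := by
        have h2 : p ≤ (2 * (c + t + 1)) * n ^ 2 := by
          calc p ≤ 2 * ((c + t + 1) * n ^ 2) := hpa
            _ = (2 * (c + t + 1)) * n ^ 2 := by ring
        calc p ^ (3 * q) ≤ ((2 * (c + t + 1)) * n ^ 2) ^ (3 * q) := Nat.pow_le_pow_left h2 _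
          _ = (2 * (c + t + 1)) ^ (3 * q) * n ^ (6 * q) := by
            rw [mul_pow, ← pow_mul]
            congr 2
            ring
      calc Fintype.card B * (t * ((K * p) ^ q * (p ^ q * p ^ q)))
          = Fintype.card B * t * K ^ q * p ^ (3 * q) := by
            rw [mul_pow]
            have : p ^ (3 * q) = p ^ q * (p ^ q * p ^ q) := by
              rw [← pow_add, ← pow_add]
              congr 1
              ring
            rw [this]
            ring
        _ ≤ Fintype.card B * t * K ^ q * ((2 * (c + t + 1)) ^ (3 * q) * n ^ (6 * q)) :=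
            Nat.mul_le_mul_left _ h1
        _ = _ := by ring
    refine ⟨Fintype.card (HV q t K B (ZMod p)), hcard,
      (host (K := K) (q := q) GB (fun i : Fin t => ((i : ℕ) : ZMod p))).overFin rfl, ?_⟩
    intro col
    have E := SimpleGraph.overFinIso
      (host (K := K) (q := q) GB (fun i : Fin t => ((i : ℕ) : ZMod p))) rfl
    obtain ⟨κ₀, hκ⟩ := hc n (ZMod p) (fun i : Fin t => ((i : ℕ) : ZMod p)) (cl_inj t p htp) hcp
      (fun x y => col s(E x, E y)) (fun x y => by rw [Sym2.eq_swap])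
    refine ⟨κ₀, ?_⟩
    intro H hH
    obtain ⟨W, _, J, β, κ, σ, hW, hedge, hcol3, hinj⟩ :=
      hcol D s n (Fin n) H (le_of_eq (Fintype.card_fin n)) hH
    subst hqd
    obtain ⟨T⟩ := hTyp (Fin n) W H J β κ σ hedge hcol3 hinj
    obtain ⟨f, hf⟩ := hκ (Fin n) W H T hW
    exact ⟨E.toEmbedding.comp f, fun a b hab => hf a b hab⟩

theorem p_main (hfin : S_fin) (hrel : S_rel) (hstr : S_str) (hcol : S_col) (htyp : S_typ)
    (hpig : S_pig) : S_main :=
  fun D => ⟨6 * (D + 1) ^ 3, fun s => main_explicit hfin hrel hstr hcol htyp hpig D s⟩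

/-- the corollary for coarsely doubling graphs with an explicit exponent -/
theorem cor_explicit (hdbl : S_dbl) (k Δ R : ℕ)
    (hmain : ∀ s : ℕ, ∃ c : ℕ, ∀ n : ℕ, ∃ N : ℕ, N ≤ c * n ^ (6 * (k ^ 3 + 1) ^ 3) ∧
      ∃ G : SimpleGraph (Fin N), Universal n (fun H => Coarse (k ^ 3) s H) G) :
    ∃ c : ℕ, ∀ n : ℕ, ∃ N : ℕ, N ≤ c * n ^ (6 * (k ^ 3 + 1) ^ 3) ∧
      ∃ G : SimpleGraph (Fin N), Universal n
        (fun H => (∀ v, (H.neighborSet v).ncard ≤ Δ) ∧ CoarseDoubling k R H) G := by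
  obtain ⟨s, hs⟩ := hdbl k Δ R
  obtain ⟨c, hc⟩ := hmain s
  refine ⟨c, ?_⟩
  intro n
  obtain ⟨N, hN, G, hG⟩ := hc n
  refine ⟨N, hN, G, ?_⟩
  intro col
  obtain ⟨b, hb⟩ := hG col
  refine ⟨b, ?_⟩
  rintro H ⟨h1, h2⟩
  exact hb H (hs (Fin n) H h1 h2)

end Pool.Agent.Lib.MP_09bd9b_co
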