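import Pool.Agent.Lib.MP_09bd9b_co.Stm

set_option autoImplicit false

/-! # Piece STY of project CD -/

namespace Pool.Agent.Lib.MP_09bd9b_co

open Finset

private theorem sty_refl {W : Type} (J : SimpleGraph W) (x : W) : Nb J x x := Or.inl rfl

private theorem sty_symm {W : Type} {J : SimpleGraph W} {x y : W} (h : Nb J x y) : Nb J y x := by
  rcases h with h | h
  · exact Or.inl h.symm
  · exact Or.inr h.symm

/-- neighbours of a given class -/
private theorem sty_nb {q : ℕ} {W : Type} (J : SimpleGraph W) (κ : W → Fin q) (hκ : Col3 J κ) :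
    ∃ nb : W → Fin q → W, (∀ β μ, Nb J β (nb β μ)) ∧ ∀ β β', Nb J β β' → nb β (κ β') = β' := by
  classical
  have hex : ∀ (β : W) (μ : Fin q), ∃ γ, Nb J β γ ∧ ∀ β', Nb J β β' → κ β' = μ → γ = β' := by
    intro β μ
    by_cases h : ∃ γ, Nb J β γ ∧ κ γ = μ
    · obtain ⟨γ, h1, h2⟩ := h
      refine ⟨γ, h1, fun β' h3 h4 => ?_⟩
      exact hκ γ β β β' (sty_symm h1) (sty_refl J β) h3 (h2.trans h4.symm)
    · refine ⟨β, sty_refl J β, fun β' h3 h4 => absurd ⟨β', h3, h4⟩ h⟩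
  choose nb h1 h2 using hex
  exact ⟨nb, h1, fun β β' h => h2 β (κ β') β' h rfl⟩

/-- degrees -/
private theorem sty_deg {q : ℕ} {W : Type} (J : SimpleGraph W) (κ : W → Fin q)
    (hκ : Col3 J κ) (γ : W) (S : Set (W × Fin q))
    (hS : ∀ x ∈ S, ∃ y, Nb J γ y ∧ Nb J y x.1) : S.ncard ≤ q ^ 3 := by
  classical
  have : Nonempty W := ⟨γ⟩
  choose! X hX1 hX2 using hS
  have h1 : Set.ncard (Set.univ : Set (Fin q × Fin q × Fin q)) = q ^ 3 := by
    rw [Set.ncard_univ, Nat.card_prod, Nat.card_prod, Nat.card_eq_fintype_card, Fintype.card_fin]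
    ring
  rw [← h1]
  refine Set.ncard_le_ncard_of_injOn (fun x => (κ (X x), κ x.1, x.2)) (fun _ _ => Set.mem_univ _)
    ?_ Set.finite_univ
  intro x hx x' hx' hxx'
  simp only [Prod.mk.injEq] at hxx'
  obtain ⟨h2, h3, h4⟩ := hxx'
  have h5 : X x = X x' := hκ _ γ γ _ (sty_symm (hX1 x hx)) (sty_refl J γ) (hX1 x' hx') h2
  have h6 : x.1 = x'.1 := by
    refine hκ _ (X x) (X x) _ (sty_symm (hX2 x hx)) (sty_refl J _) ?_ h3
    rw [h5]
    exact hX2 x' hx'
  exact Prod.ext h6 h4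

/-- piece STY -/
theorem p_sty (hdl : S_dl) : S_sty := by
  intro q K M
  obtain ⟨c, hc⟩ := hdl (q * K) (q ^ 3) M
  refine ⟨c * (1 + q) ^ 2, ?_⟩
  intro F _ e A he hA n W _ J κ hκ hW hcard
  classical
  obtain ⟨nb, hnb1, hnb2⟩ := sty_nb J κ hκ
  -- the edges
  let ed : W × Fin q → Fin q × Fin K → W ⊕ (W × Fin q) := fun x i =>
    if i.2 = e i.1 (κ (nb x.1 i.1)) then Sum.inl (nb x.1 i.1)
    else if i.2 = e i.1 (κ (nb (nb x.1 x.2) i.1)) then Sum.inl (nb (nb x.1 x.2) i.1)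
    else Sum.inr x
  have hdeg : ∀ (i : Fin q × Fin K) (ν : W ⊕ (W × Fin q)), {x | ed x i = ν}.ncard ≤ q ^ 3 := by
    intro i ν
    refine sty_deg J κ hκ (ν.elim id Prod.fst) _ ?_
    intro x hx
    have hx' : ed x i = ν := hx
    rw [← hx']
    simp only [ed]
    split_ifs with h1 h2
    · exact ⟨nb x.1 i.1, sty_refl J _, sty_symm (hnb1 _ _)⟩
    · exact ⟨nb x.1 x.2, sty_symm (hnb1 _ _), sty_symm (hnb1 _ _)⟩
    · exact ⟨x.1, sty_refl J _, sty_refl J _⟩
  obtain ⟨Y, hY1, hY2⟩ := hc (Fin q × Fin K) F (W ⊕ (W × Fin q)) (W × Fin q) ((1 + q) * n)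
    (by rw [Fintype.card_prod, Fintype.card_fin, Fintype.card_fin])
    (by
      rw [Fintype.card_sum, Fintype.card_prod, Fintype.card_fin]
      calc Fintype.card W + Fintype.card W * q = (1 + q) * Fintype.card W := by ring
        _ ≤ (1 + q) * n := Nat.mul_le_mul_left _ hW)
    (by
      calc c * ((1 + q) * n) ^ 2 = c * (1 + q) ^ 2 * n ^ 2 := by ring
        _ ≤ _ := hcard)
    ((Equiv.curry (Fin q) (Fin K) F).symm '' A)
    (by
      rw [Set.ncard_image_of_injective _ (Equiv.injective _)]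
      exact hA)
    ed hdeg
  have hmem : ∀ x : W × Fin q, (fun a j => Y (a, j) (ed x (a, j))) ∈ A := by
    intro x
    obtain ⟨w, hw, hw'⟩ := hY2 x
    have h1 : w = fun a j => Y (a, j) (ed x (a, j)) := by
      have h2 := congrArg (Equiv.curry (Fin q) (Fin K) F) hw'
      rw [Equiv.apply_symm_apply] at h2
      exact h2
    rw [← h1]
    exact hw
  have hR1 : ∀ β, nb β (κ β) = β := fun β => hnb2 β β (sty_refl J β)
  have hR3 : ∀ β β' a, Nb J β β' → κ (nb β a) = κ (nb β' a) → nb β a = nb β' a := by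
    intro β β' a h h'
    exact hκ _ β β' _ (sty_symm (hnb1 β a)) h (hnb1 β' a) h'
  refine ⟨fun β a => κ (nb β a), fun β a => Y (a, e a (κ (nb β a))) (Sum.inl (nb β a)), ?_, ?_, ?_⟩
  · intro β β' h
    refine ⟨?_, _, hmem (β, κ β'), ?_, ?_⟩
    · change κ (nb β (κ β)) = κ (nb β' (κ β))
      rw [hR1, hnb2 β' β (sty_symm h)]
    · intro a
      have h1 : ed (β, κ β') (a, e a (κ (nb β a))) = Sum.inl (nb β a) := by
        simp only [ed, if_true]
      change Y (a, e a (κ (nb β a))) (ed (β, κ β') (a, e a (κ (nb β a)))) = _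
      rw [h1]
    · intro a
      have h1 : ed (β, κ β') (a, e a (κ (nb β' a))) = Sum.inl (nb β' a) := by
        simp only [ed, hnb2 β β' h]
        split_ifs with h2
        · rw [hR3 β β' a h (he a h2).symm]
        · rfl
      change Y (a, e a (κ (nb β' a))) (ed (β, κ β') (a, e a (κ (nb β' a)))) = _
      rw [h1]
  · intro β β' h1 h2 h3
    change κ (nb β (κ β)) = κ (nb β' (κ β)) at h2
    change Y (κ β, e (κ β) (κ (nb β (κ β)))) (Sum.inl (nb β (κ β))) =
      Y (κ β, e (κ β) (κ (nb β' (κ β)))) (Sum.inl (nb β' (κ β))) at h3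
    rw [← h2] at h3
    have h4 := Sum.inl.inj (hY1 _ h3)
    rw [hR1, h1, hR1] at h4
    exact h4
  · intro β β' a h2 h3
    change κ (nb β a) = κ (nb β' a) at h2
    change Y (a, e a (κ (nb β a))) (Sum.inl (nb β a)) =
      Y (a, e a (κ (nb β' a))) (Sum.inl (nb β' a)) at h3
    rw [← h2] at h3
    have h4 := Sum.inl.inj (hY1 _ h3)
    refine ⟨nb β a, hnb1 β a, ?_⟩
    rw [h4]
    exact sty_symm (hnb1 β' a)

end Pool.Agent.Lib.MP_09bd9b_co
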